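import Pool.Agent.LibZP46.Defs

/-!
ZQ46 (MP_225c33, part (a)): definitions. The modular forms of level 3.
-/

namespace Pool.Agent.LibZQ46

open scoped BigOperators
open Complex Pool.Agent.LibZP46

noncomputable section

/-- The Eisenstein series of weight 6 on the upper half-plane. -/
def E6 (τ : ℂ) : ℂ := ModularForm.E₆ (UpperHalfPlane.ofComplex τ)

/-- The sign at `e`. -/
def chi3 (e : ℤ) : ℤ := if 3 ∣ e then -1 else 1

/-- The form of weight 2 and level 3. -/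
def zz (τ : ℂ) : ℂ := (3 * EE (3 * τ) - EE τ) / 2

/-- The Eisenstein series of weight 6 and level 3 with the sign -1. -/
def KK (τ : ℂ) : ℂ := 27 * E6 (3 * τ) - E6 τ

/-- The cusp form of weight 6 and level 3. -/
def hh (τ : ℂ) : ℂ := (26 * zz τ ^ 3 - KK τ) / 432

/-- The sum of the fifth powers of the divisors. -/
def s5 (n : ℕ) : ℤ := ∑ d ∈ n.divisors, (d : ℤ) ^ 5

/-- `s5 (n / d)`, or `0`. -/
def s5d (d n : ℕ) : ℤ := if d ∣ n then s5 (n / d) else 0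

/-- `(s5 n - sg n) / 6`. -/
def w5 (n : ℕ) : ℤ := ∑ d ∈ n.divisors, ((d : ℤ) ^ 5 - (d : ℤ)) / 6

/-- `w5 (n / d)`, or `0`. -/
def w5d (d n : ℕ) : ℤ := if d ∣ n then w5 (n / d) else 0

def AT : PowerSeries ℤ := PowerSeries.mk fun n => sgd 1 n - 3 * sgd 3 n

def LT : PowerSeries ℤ :=
  PowerSeries.mk fun n => sgd 1 n + 25 * sgd 3 n - 7 * w5d 1 n + 189 * w5d 3 n

/-- The q-series of `zz`. -/
def zzS : PowerSeries ℤ := 1 + 12 * AT

/-- The q-series of `hh`. -/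
def hhS : PowerSeries ℤ := LT + 26 * AT ^ 2 + 104 * AT ^ 3

/-- The data of level 3. -/
def D3 : Dat := ⟨3, 3, chi3, zz, hh, zzS, hhS⟩

/-- The numbers `C(2n,n)^2 C(3n,n)`. -/
def vv (n : ℕ) : ℕ := (2 * n).choose n ^ 2 * (3 * n).choose n

/-- The CM point: `3 τ^2 + 3 τ + 11 = 0`. -/
def tauC : ℂ := (-3 + ((Real.sqrt 123 : ℝ) : ℂ) * I) / 6

end

end Pool.Agent.LibZQ46
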