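import Pool.Agent.LibZP46.B1
import Pool.Agent.LibZQ46.Defs

/-!
ZQ46 P1. The Eisenstein series of weight 6 as a function on `ℂ`.

Plan (model: LibZP46/B1.lean, same arguments). `E6_hol`: `ModularForm.E₆` is `MDifferentiable`
(`ModularForm.holo'` / `ModularFormClass.holo`), `UpperHalfPlane.mdifferentiable_iff.1`. `E6_act`:
`E₆` is slash invariant of weight 6 under the element of `SL(2, ℤ)` with matrix `γ`
(`SlashInvariantForm.slash_action_eqn''` or `slash_action_eq`, level `𝒮ℒ`; then as in `Del_act` of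
LibZP46/B3.lean or `B1_key`: `ModularForm.SL_slash_apply`, `denom = jm γ τ`). `hasSum_E6`:
`EisensteinSeries.q_expansion_bernoulli` / `EisensteinSeries.E_qExpansion_coeff` with `k = 6`,
`bernoulli 6 = 1 / 42` (`2 * 6 / (1 / 42) = 504`; `bernoulli'` can be computed by `norm_num [bernoulli,
bernoulli'_def ...]`: Mathlib has `bernoulli'_four`, `bernoulli'_two`, ...; unfold `bernoulli'_def`,
`Finset.sum_range_succ`), `EisensteinSeries.summable_sigma_mul_cexp_pow`, `s5 n = σ 5 n`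
(`ArithmeticFunction.sigma_apply`). `hasSum_E6_mul`: copy the proof of `hasSum_EE_mul`.
-/

namespace Pool.Agent.LibZQ46

open Complex Pool.Agent.LibZP46

theorem E6_hol : Hol E6 := by
  have h := UpperHalfPlane.mdifferentiable_iff.1 ModularForm.E₆.holo'
  exact h

theorem E6_act {γ : Mat} (hγ : γ.det = 1) {τ : ℂ} (hτ : 0 < τ.im) :
    E6 (act γ τ) = jm γ τ ^ 6 * E6 τ := by
  obtain ⟨z, hz⟩ : ∃ z : UpperHalfPlane, (z : ℂ) = τ := ⟨⟨τ, hτ⟩, rfl⟩
  obtain ⟨A, hA⟩ : ∃ A : Matrix.SpecialLinearGroup (Fin 2) ℤ, (A : Mat) = γ := ⟨⟨γ, hγ⟩, rfl⟩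
  have h1 : ModularForm.E₆ (A • z) = jm γ τ ^ 6 * ModularForm.E₆ z := by
    have h0 : Matrix.SpecialLinearGroup.mapGL ℝ A ∈
        (Matrix.SpecialLinearGroup.mapGL ℝ : Matrix.SpecialLinearGroup (Fin 2) ℤ →*
          GL (Fin 2) ℝ).range := ⟨A, rfl⟩
    have h2 := SlashInvariantForm.slash_action_eqn'' ModularForm.E₆ h0 z
    have h3 : UpperHalfPlane.denom (Matrix.SpecialLinearGroup.mapGL ℝ A) z = jm γ τ := by
      rw [← hz, ← hA]
      simp [UpperHalfPlane.denom, jm]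
    rw [h3] at h2
    exact h2
  have h4 : ((A • z : UpperHalfPlane) : ℂ) = act γ τ := by
    rw [UpperHalfPlane.coe_specialLinearGroup_apply, ← hz, ← hA]
    simp [act, jm]
  rw [E6, E6, ← h4, ← hz, UpperHalfPlane.ofComplex_apply, UpperHalfPlane.ofComplex_apply, hz]
  exact h1

private theorem P1_s5 (n : ℕ) : ((ArithmeticFunction.sigma 5 n : ℕ) : ℂ) = (s5 n : ℂ) := by
  rw [ArithmeticFunction.sigma_apply, s5]
  push_cast
  rfl

private theorem P1_bern : (bernoulli 6 : ℂ) = 1 / 42 := by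
  have h : bernoulli 6 = 1 / 42 := by decide +kernel
  rw [h]
  push_cast
  rfl

theorem hasSum_E6 {τ : ℂ} (hτ : 0 < τ.im) :
    HasSum (fun n : ℕ => (if n = 0 then 1 else -504 * (s5 n : ℂ)) * qq τ ^ n) (E6 τ) := by
  have h := ModularForm.hasSum_qExpansion (f := ModularForm.E₆) (h := 1) one_pos
    one_mem_strictPeriods_SL ⟨τ, hτ⟩
  unfold E6
  rw [UpperHalfPlane.ofComplex_apply_of_im_pos hτ]
  have e : (fun n : ℕ => (if n = 0 then 1 else -504 * (s5 n : ℂ)) * qq τ ^ n) =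
      (fun m : ℕ => (UpperHalfPlane.qExpansion 1 ModularForm.E₆).coeff m *
        Function.Periodic.qParam 1 ((⟨τ, hτ⟩ : UpperHalfPlane) : ℂ) ^ m) := by
    funext n
    rw [EisensteinSeries.E_qExpansion_coeff _ ⟨3, rfl⟩, P1_s5, P1_bern]
    have h4 : Function.Periodic.qParam 1 ((⟨τ, hτ⟩ : UpperHalfPlane) : ℂ) = qq τ := by
      simp [Function.Periodic.qParam, qq]
    rw [h4]
    congr 1
    split
    · rfl
    · norm_num
  rw [e]
  exact h

/-- The series of `E6 (d τ)`. -/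
theorem hasSum_E6_mul (d : ℕ) (hd : 0 < d) {τ : ℂ} (hτ : 0 < τ.im) :
    HasSum (fun n : ℕ => (if n = 0 then 1 else -504 * (s5d d n : ℂ)) * qq τ ^ n)
      (E6 ((d : ℂ) * τ)) := by
  have hd' : (0 : ℝ) < (d : ℝ) := by exact_mod_cast hd
  have him : 0 < ((d : ℂ) * τ).im := by
    have : ((d : ℂ) * τ).im = (d : ℝ) * τ.im := by simp
    rw [this]
    positivity
  have h := hasSum_E6 him
  have hq : qq ((d : ℂ) * τ) = qq τ ^ d := by
    unfold qq
    rw [← Complex.exp_nat_mul]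
    congr 1
    ring
  rw [hq] at h
  have hinj : Function.Injective (fun n : ℕ => d * n) := fun a b hab =>
    Nat.eq_of_mul_eq_mul_left hd hab
  rw [← hinj.hasSum_iff (f := fun n : ℕ => (if n = 0 then 1 else -504 * (s5d d n : ℂ)) * qq τ ^ n)]
  · have e : ((fun n : ℕ => (if n = 0 then 1 else -504 * (s5d d n : ℂ)) * qq τ ^ n) ∘
        fun n : ℕ => d * n) =
        fun n : ℕ => (if n = 0 then 1 else -504 * (s5 n : ℂ)) * (qq τ ^ d) ^ n := by
      funext n
      have h1 : s5d d (d * n) = s5 n := by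
        unfold s5d
        rw [if_pos (Dvd.intro n rfl), Nat.mul_div_cancel_left n hd]
      have h2 : (d * n = 0) = (n = 0) := by
        rw [Nat.mul_eq_zero]
        exact propext ⟨fun h => h.resolve_left hd.ne', Or.inr⟩
      simp only [Function.comp_apply, h1, h2, pow_mul]
    rw [e]
    exact h
  · intro x hx
    have h1 : ¬ d ∣ x := fun hdx => hx (by
      obtain ⟨c, rfl⟩ := hdx
      exact ⟨c, rfl⟩)
    have h2 : x ≠ 0 := fun h0 => h1 (h0 ▸ dvd_zero d)
    have h3 : s5d d x = 0 := if_neg h1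
    simp [h2, h3]

end Pool.Agent.LibZQ46
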