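import Pool.Agent.LibZP46.A7
import Pool.Agent.LibZQ46.Defs

/-!
ZQ46 P10. The pair `F τ`, `b ^ r F (b τ)` under the Atkin-Lehner matrices of level `N b`.

Plan: copy LibZP46/G1.lean with `6` replaced by `N` (`hbN` is used only for: if `b ∣ e`, `e = b e'`
then `e' ∣ N` (cancel `b`; no coprimality needed); if `b ∤ e` then `e ∣ N`, since `e` and `b` are
coprime).
-/

namespace Pool.Agent.LibZQ46

open Complex Pool.Agent.LibZP46

private theorem P10_im {b : ℕ} (hb : 0 < b) {τ : ℂ} (hτ : 0 < τ.im) : 0 < ((b : ℂ) * τ).im := by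
  have h : ((b : ℂ) * τ).im = (b : ℝ) * τ.im := by simp
  rw [h]
  have hb' : (0 : ℝ) < (b : ℝ) := by exact_mod_cast hb
  positivity

private theorem P10_jm (a b c d : ℤ) (τ : ℂ) : jm !![a, b; c, d] τ = (c : ℂ) * τ + (d : ℂ) := by
  simp [jm]

private theorem P10_act (a b c d : ℤ) (τ : ℂ) :
    act !![a, b; c, d] τ = ((a : ℂ) * τ + (b : ℂ)) / ((c : ℂ) * τ + (d : ℂ)) := by
  simp [act, jm]

private theorem P10_alm {N e : ℤ} {a b c d : ℤ} (h00 : e ∣ a) (h10 : N ∣ c) (h11 : e ∣ d)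
    (hdet : a * d - b * c = e) : ALM N e 1 !![a, b; c, d] := by
  refine ⟨?_, ?_, ?_, ?_⟩
  · simpa using h00
  · simpa using h10
  · simpa using h11
  · rw [Matrix.det_fin_two_of, mul_one]
    exact hdet

theorem pair_act (N b : ℕ) (hN : 0 < N) (hb : b.Prime) {e : ℤ} (he0 : 0 < e)
    (he : e ∣ ((N * b : ℕ) : ℤ)) {W : Mat} (hW : ALM ((N * b : ℕ) : ℤ) e 1 W) :
    ∃ e' : ℤ, 0 < e' ∧ e' ∣ (N : ℤ) ∧
      ((∀ (χ : ℤ → ℤ) (r : ℤ) (F : ℂ → ℂ), ModN N χ r F → ∀ τ : ℂ, 0 < τ.im →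
        F (act W τ) = (χ e' : ℂ) * (jm W τ ^ 2 / (e : ℂ)) ^ r * F τ ∧
        (b : ℂ) ^ r * F ((b : ℂ) * act W τ) =
          (χ e' : ℂ) * (jm W τ ^ 2 / (e : ℂ)) ^ r * ((b : ℂ) ^ r * F ((b : ℂ) * τ))) ∨
      (∀ (χ : ℤ → ℤ) (r : ℤ) (F : ℂ → ℂ), ModN N χ r F → ∀ τ : ℂ, 0 < τ.im →
        F (act W τ) =
          (χ e' : ℂ) * (jm W τ ^ 2 / (e : ℂ)) ^ r * ((b : ℂ) ^ r * F ((b : ℂ) * τ)) ∧
        (b : ℂ) ^ r * F ((b : ℂ) * act W τ) =
          (χ e' : ℂ) * (jm W τ ^ 2 / (e : ℂ)) ^ r * F τ)) := by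
  have hbC : (b : ℂ) ≠ 0 := by exact_mod_cast hb.ne_zero
  have hbZ : (b : ℤ) ≠ 0 := by exact_mod_cast hb.ne_zero
  have hbp : Prime (b : ℤ) := Nat.prime_iff_prime_int.1 hb
  have hcast : (((N * b : ℕ)) : ℤ) = (N : ℤ) * (b : ℤ) := by push_cast; ring
  rw [hcast] at he
  obtain ⟨h00, h10, h11, hdet⟩ := hW
  rw [hcast] at h10
  rw [Matrix.det_fin_two, mul_one] at hdet
  obtain ⟨z, hz⟩ := h10
  obtain ⟨w00, w01, w10, w11, rfl⟩ : ∃ w00 w01 w10 w11 : ℤ, W = !![w00, w01; w10, w11] :=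
    ⟨W 0 0, W 0 1, W 1 0, W 1 1, Matrix.eta_fin_two W⟩
  simp only [Matrix.of_apply, Matrix.cons_val', Matrix.cons_val_zero, Matrix.cons_val_one,
    Matrix.cons_val_fin_one] at h00 h11 hdet hz
  subst hz
  by_cases hbe : (b : ℤ) ∣ e
  · obtain ⟨e', rfl⟩ := hbe
    have he0' : 0 < e' := by
      have hb0 : (0 : ℤ) < (b : ℤ) := by exact_mod_cast hb.pos
      exact (mul_pos_iff_of_pos_left hb0).1 he0
    have heN : e' ∣ (N : ℤ) := by
      rw [mul_comm (N : ℤ)] at he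
      exact (mul_dvd_mul_iff_left hbZ).1 he
    obtain ⟨x, hx⟩ := h00
    obtain ⟨w, hw⟩ := h11
    subst hx hw
    refine ⟨e', he0', heN, Or.inr fun χ r F hF τ hτ => ⟨?_, ?_⟩⟩
    · have hA : ALM (N : ℤ) e' 1 !![e' * x, w01; (N : ℤ) * z, (b : ℤ) * e' * w] := by
        refine P10_alm ⟨x, rfl⟩ ⟨z, rfl⟩ ⟨(b : ℤ) * w, by ring⟩ ?_
        have h1 : (b : ℤ) * (e' * x * ((b : ℤ) * e' * w) - w01 * ((N : ℤ) * z)) = (b : ℤ) * e' := by
          linear_combination hdet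
        exact mul_left_cancel₀ hbZ h1
      have h1 := hF e' he0' heN _ hA ((b : ℂ) * τ) (P10_im hb.pos hτ)
      rw [P10_act, P10_jm] at h1
      rw [P10_act, P10_jm]
      have e1 : ((e' * x : ℤ) : ℂ) * ((b : ℂ) * τ) + (w01 : ℂ) =
          (((b : ℤ) * e' * x : ℤ) : ℂ) * τ + (w01 : ℂ) := by
        push_cast
        ring
      have e2 : (((N : ℤ) * z : ℤ) : ℂ) * ((b : ℂ) * τ) + (((b : ℤ) * e' * w : ℤ) : ℂ) =
          (((N : ℤ) * (b : ℤ) * z : ℤ) : ℂ) * τ + (((b : ℤ) * e' * w : ℤ) : ℂ) := by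
        push_cast
        ring
      rw [e1, e2] at h1
      rw [h1]
      have e3 : ∀ t : ℂ, t / (e' : ℂ) = (b : ℂ) * (t / ((((b : ℤ) * e' : ℤ)) : ℂ)) := by
        intro t
        rw [← mul_div_assoc, Int.cast_mul, Int.cast_natCast, mul_div_mul_left _ _ hbC]
      rw [e3, mul_zpow]
      ring
    · have hA : ALM (N : ℤ) e' 1 !![e' * ((b : ℤ) * x), w01; (N : ℤ) * z, e' * w] := by
        refine P10_alm ⟨(b : ℤ) * x, rfl⟩ ⟨z, rfl⟩ ⟨w, rfl⟩ ?_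
        have h1 : (b : ℤ) * (e' * ((b : ℤ) * x) * (e' * w) - w01 * ((N : ℤ) * z)) = (b : ℤ) * e' := by
          linear_combination hdet
        exact mul_left_cancel₀ hbZ h1
      have h1 := hF e' he0' heN _ hA τ hτ
      rw [P10_act, P10_jm] at h1
      rw [P10_act, P10_jm]
      have e2 : (((N : ℤ) * (b : ℤ) * z : ℤ) : ℂ) * τ + (((b : ℤ) * e' * w : ℤ) : ℂ) =
          (b : ℂ) * ((((N : ℤ) * z : ℤ) : ℂ) * τ + ((e' * w : ℤ) : ℂ)) := by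
        push_cast
        ring
      have e1 : (b : ℂ) * (((((b : ℤ) * e' * x : ℤ) : ℂ) * τ + (w01 : ℂ)) /
          ((((N : ℤ) * (b : ℤ) * z : ℤ) : ℂ) * τ + (((b : ℤ) * e' * w : ℤ) : ℂ))) =
          (((e' * ((b : ℤ) * x) : ℤ) : ℂ) * τ + (w01 : ℂ)) /
            ((((N : ℤ) * z : ℤ) : ℂ) * τ + ((e' * w : ℤ) : ℂ)) := by
        rw [e2, ← mul_div_assoc, mul_div_mul_left _ _ hbC]
        congr 1
        push_cast
        ring
      rw [e1, h1, e2]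
      have e3 : ∀ t : ℂ, ((b : ℂ) * t) ^ 2 / ((((b : ℤ) * e' : ℤ)) : ℂ) =
          (b : ℂ) * (t ^ 2 / (e' : ℂ)) := by
        intro t
        rw [Int.cast_mul, Int.cast_natCast, mul_pow, pow_two (b : ℂ), mul_assoc,
          mul_div_mul_left _ _ hbC, mul_div_assoc]
      rw [e3, mul_zpow]
      ring
  · have heN : e ∣ (N : ℤ) := by
      have hcop : IsCoprime e (b : ℤ) := ((Prime.coprime_iff_not_dvd hbp).2 hbe).symm
      exact hcop.dvd_of_dvd_mul_right he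
    refine ⟨e, he0, heN, Or.inl fun χ r F hF τ hτ => ⟨?_, ?_⟩⟩
    · exact hF e he0 heN _ (P10_alm h00 ⟨(b : ℤ) * z, by ring⟩ h11 hdet) τ hτ
    · have hA : ALM (N : ℤ) e 1 !![w00, (b : ℤ) * w01; (N : ℤ) * z, w11] := by
        refine P10_alm h00 ⟨z, rfl⟩ h11 ?_
        linear_combination hdet
      have h1 := hF e he0 heN _ hA ((b : ℂ) * τ) (P10_im hb.pos hτ)
      rw [P10_act, P10_jm] at h1
      rw [P10_act, P10_jm]
      have e1 : ((w00 : ℤ) : ℂ) * ((b : ℂ) * τ) + (((b : ℤ) * w01 : ℤ) : ℂ) =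
          (b : ℂ) * ((w00 : ℂ) * τ + (w01 : ℂ)) := by
        push_cast
        ring
      have e2 : (((N : ℤ) * z : ℤ) : ℂ) * ((b : ℂ) * τ) + ((w11 : ℤ) : ℂ) =
          (((N : ℤ) * (b : ℤ) * z : ℤ) : ℂ) * τ + (w11 : ℂ) := by
        push_cast
        ring
      rw [e1, e2, mul_div_assoc] at h1
      rw [h1]
      ring

end Pool.Agent.LibZQ46
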