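import Pool.Agent.LibZP46.A3
import Pool.Agent.LibZP46.A8
import Pool.Agent.LibZQ46.P10

/-!
ZQ46 P11. The vanishing criterion at level `N b`, for any data `D`.

Plan: copy LibZP46/G2.lean (there `D6`, `gg`, weight 4, `6 b`). Here `c = D.c`,
`F = P ^ 2 / (g τ * (b ^ c * g (b τ))) ^ v`; `h.gmod` has the signs `χ e ^ c`, and the product
`g τ * (b ^ c * g (b τ))` gets the factor `(χ e' ^ c)^2 (j^2 / e) ^ (2 c) = (j^2 / e) ^ (2 c)` in both
alternatives of `pair_act` (`h.chi_sq`), so its `v`-th power gets `(j^2 / e) ^ (2 c v)`, the same as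
`P ^ 2`. `Squarefree (N * b)` from `h.sqf`, `hb`, `hbN` (`Nat.squarefree_mul`). The order of
`(g τ * b^c g (b τ)) ^ v` in `q` is `(1 + b) v < 2 m`.
-/

namespace Pool.Agent.LibZQ46

open Complex Pool.Agent.LibZP46

theorem vanish {D : Dat} (h : D.OK) (b : ℕ) (hb : b.Prime) (hbN : ¬ b ∣ D.N) (v : ℕ) (P : ℂ → ℂ)
    (hP : Hol P)
    (hinv : ∀ e : ℤ, 0 < e → e ∣ ((D.N * b : ℕ) : ℤ) → ∀ W : Mat,
      ALM ((D.N * b : ℕ) : ℤ) e 1 W → ∀ τ : ℂ, 0 < τ.im →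
        P (act W τ) ^ 2 = ((jm W τ ^ 2 / (e : ℂ)) ^ (D.c * v)) ^ 2 * P τ ^ 2)
    (a : PowerSeries ℤ) (hq : HasQ P (toC a)) (m : ℕ) (hm : PowerSeries.X ^ m ∣ a)
    (hlt : (1 + b) * v < 2 * m) {τ : ℂ} (hτ : 0 < τ.im) : P τ = 0 := by
  have hbpos : 0 < b := hb.pos
  have hb0 : (b : ℂ) ≠ 0 := by exact_mod_cast hb.ne_zero
  have hNpos : 0 < D.N := Nat.pos_of_ne_zero h.sqf.ne_zero
  have hsq : Squarefree (D.N * b) := by
    rw [Nat.squarefree_mul ((Nat.Prime.coprime_iff_not_dvd hb).2 hbN).symm]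
    exact ⟨h.sqf, hb.prime.squarefree⟩
  have hbim : ∀ τ : ℂ, 0 < τ.im → 0 < ((b : ℂ) * τ).im := by
    intro τ hτ
    rw [Complex.mul_im, Complex.natCast_re, Complex.natCast_im, zero_mul, add_zero]
    exact mul_pos (by exact_mod_cast hbpos) hτ
  have hQne : ∀ τ : ℂ, 0 < τ.im → D.g τ * ((b : ℂ) ^ D.c * D.g ((b : ℂ) * τ)) ≠ 0 := fun τ hτ =>
    mul_ne_zero (h.gne τ hτ) (mul_ne_zero (pow_ne_zero _ hb0) (h.gne _ (hbim τ hτ)))
  have hQhol : DifferentiableOn ℂ (fun τ : ℂ => D.g τ * ((b : ℂ) ^ D.c * D.g ((b : ℂ) * τ)))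
      {τ : ℂ | 0 < τ.im} := by
    have h1 : DifferentiableOn ℂ (fun τ : ℂ => D.g ((b : ℂ) * τ)) {τ : ℂ | 0 < τ.im} :=
      DifferentiableOn.comp (t := {τ : ℂ | 0 < τ.im}) h.ghol
        ((differentiable_id.const_mul (b : ℂ)).differentiableOn) (fun τ hτ => hbim τ hτ)
    exact DifferentiableOn.mul h.ghol (h1.const_mul _)
  have hQact : ∀ e : ℤ, 0 < e → e ∣ ((D.N * b : ℕ) : ℤ) → ∀ W : Mat,
      ALM ((D.N * b : ℕ) : ℤ) e 1 W →
      ∀ τ : ℂ, 0 < τ.im → D.g (act W τ) * ((b : ℂ) ^ D.c * D.g ((b : ℂ) * act W τ)) =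
        (jm W τ ^ 2 / (e : ℂ)) ^ (2 * D.c) * (D.g τ * ((b : ℂ) ^ D.c * D.g ((b : ℂ) * τ))) := by
    intro e he0 he W hW τ hτ
    obtain ⟨e', he'0, he', h' | h'⟩ := pair_act D.N b hNpos hb he0 he hW
    · obtain ⟨h1, h2⟩ := h' _ _ D.g h.gmod τ hτ
      have hs : (((fun e => D.χ e ^ D.c) e' : ℤ) : ℂ) * (((fun e => D.χ e ^ D.c) e' : ℤ) : ℂ) = 1 := by
        have h3 := h.chi_sq e' he'0 he'
        have h4 : (D.χ e' ^ D.c) * (D.χ e' ^ D.c) = 1 := by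
          rw [← mul_pow, ← pow_two, h3, one_pow]
        exact_mod_cast h4
      simp only [zpow_natCast] at h1 h2
      rw [h1, h2, pow_mul' _ 2 D.c, pow_two (_ ^ D.c)]
      linear_combination (((jm W τ ^ 2 / (e : ℂ)) ^ D.c) ^ 2 * (D.g τ * ((b : ℂ) ^ D.c *
        D.g ((b : ℂ) * τ)))) * hs
    · obtain ⟨h1, h2⟩ := h' _ _ D.g h.gmod τ hτ
      have hs : (((fun e => D.χ e ^ D.c) e' : ℤ) : ℂ) * (((fun e => D.χ e ^ D.c) e' : ℤ) : ℂ) = 1 := by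
        have h3 := h.chi_sq e' he'0 he'
        have h4 : (D.χ e' ^ D.c) * (D.χ e' ^ D.c) = 1 := by
          rw [← mul_pow, ← pow_two, h3, one_pow]
        exact_mod_cast h4
      simp only [zpow_natCast] at h1 h2
      rw [h1, h2, pow_mul' _ 2 D.c, pow_two (_ ^ D.c)]
      linear_combination (((jm W τ ^ 2 / (e : ℂ)) ^ D.c) ^ 2 * (D.g τ * ((b : ℂ) ^ D.c *
        D.g ((b : ℂ) * τ)))) * hs
  have hFhol : Hol (fun τ => P τ ^ 2 / (D.g τ * ((b : ℂ) ^ D.c * D.g ((b : ℂ) * τ))) ^ v) :=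
    DifferentiableOn.div (hP.pow 2) (hQhol.pow v) fun τ hτ => pow_ne_zero v (hQne τ hτ)
  have hFinv : ∀ e : ℤ, 0 < e → e ∣ ((D.N * b : ℕ) : ℤ) → ∀ W : Mat,
      ALM ((D.N * b : ℕ) : ℤ) e 1 W →
      ∀ τ : ℂ, 0 < τ.im →
        (fun τ => P τ ^ 2 / (D.g τ * ((b : ℂ) ^ D.c * D.g ((b : ℂ) * τ))) ^ v) (act W τ) =
        (fun τ => P τ ^ 2 / (D.g τ * ((b : ℂ) ^ D.c * D.g ((b : ℂ) * τ))) ^ v) τ := by
    intro e he0 he W hW τ hτ
    have hdet : W.det ≠ 0 := by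
      rw [hW.hdet, mul_one]
      exact he0.ne'
    have hJ : jm W τ ^ 2 / (e : ℂ) ≠ 0 :=
      div_ne_zero (pow_ne_zero 2 (jm_ne hdet hτ)) (by exact_mod_cast he0.ne')
    simp only
    rw [hinv e he0 he W hW τ hτ, hQact e he0 he W hW τ hτ, mul_pow (_ ^ (2 * D.c)), ← pow_mul,
      ← pow_mul, show D.c * v * 2 = 2 * D.c * v by ring]
    exact mul_div_mul_left _ _ (pow_ne_zero _ hJ)
  -- the series
  have hg0 : PowerSeries.constantCoeff D.gS = 0 := h.g0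
  have hg1 : PowerSeries.coeff 1 D.gS = 1 := h.g1
  have hs0 : PowerSeries.constantCoeff (toC D.gS) = 0 := by
    rw [← PowerSeries.coeff_zero_eq_constantCoeff_apply, toC, PowerSeries.coeff_map,
      PowerSeries.coeff_zero_eq_constantCoeff_apply, hg0, map_zero]
  have hs1 : PowerSeries.constantCoeff (shS (toC D.gS)) = 1 := by
    rw [← PowerSeries.coeff_zero_eq_constantCoeff_apply, shS, PowerSeries.coeff_mk, zero_add, toC,
      PowerSeries.coeff_map, hg1, map_one]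
  have hA := h.gq.shift hs0
  have hB := hA.dil b hbpos
  have hR := (hA.mul (hB.const_mul ((b : ℂ) ^ D.c))).pow v
  have hr0 : PowerSeries.constantCoeff ((shS (toC D.gS) *
      (PowerSeries.C ((b : ℂ) ^ D.c) * exd b (shS (toC D.gS)))) ^ v) ≠ 0 := by
    rw [map_pow, map_mul, map_mul, constantCoeff_exd, hs1, PowerSeries.constantCoeff_C, one_mul,
      mul_one]
    exact pow_ne_zero _ (pow_ne_zero _ hb0)
  have hS := (hq.pow 2).mul (hR.inv hr0)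
  have hmain : HasQ (fun τ => qq τ ^ ((1 + b) * v) *
      (P τ ^ 2 / (D.g τ * ((b : ℂ) ^ D.c * D.g ((b : ℂ) * τ))) ^ v)) (toC a ^ 2 *
      ((shS (toC D.gS) * (PowerSeries.C ((b : ℂ) ^ D.c) * exd b (shS (toC D.gS)))) ^ v)⁻¹) := by
    refine hS.congr 0 fun τ _ => ?_
    have h1 : D.g τ * ((b : ℂ) ^ D.c * D.g ((b : ℂ) * τ)) =
        D.g τ / qq τ * ((b : ℂ) ^ D.c * (D.g ((b : ℂ) * τ) / qq ((b : ℂ) * τ))) *
          qq τ ^ (1 + b) := by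
      rw [qq_nat_mul, pow_add, pow_one]
      have h2 := qq_ne τ
      field_simp
    rw [h1, mul_pow _ (qq τ ^ (1 + b)), ← pow_mul, ← div_div, mul_div_cancel₀ _
      (pow_ne_zero _ (qq_ne τ))]
    exact (div_eq_mul_inv _ _).symm
  have hdvd : PowerSeries.X ^ ((1 + b) * v + 1) ∣ toC a ^ 2 * ((shS (toC D.gS) *
      (PowerSeries.C ((b : ℂ) ^ D.c) * exd b (shS (toC D.gS)))) ^ v)⁻¹ := by
    refine Dvd.dvd.mul_right ?_ _
    have h1 : (PowerSeries.X : PowerSeries ℂ) ^ m ∣ toC a := by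
      obtain ⟨c, rfl⟩ := hm
      rw [toC_mul, toC_pow, toC_X]
      exact dvd_mul_right _ _
    refine dvd_trans (pow_dvd_pow _ (show (1 + b) * v + 1 ≤ m * 2 by omega)) ?_
    rw [pow_mul]
    exact pow_dvd_pow_of_dvd h1 2
  have hbdd := bdd_of_hasQ ((1 + b) * v) hmain (dvd_trans (pow_dvd_pow _ (Nat.le_succ _)) hdvd)
  obtain ⟨c, hc⟩ := rigid (D.N * b) hsq _ hFhol hFinv hbdd
  have hc0 := eq_zero_of_hasQ ((1 + b) * v) hmain hdvd c hc
  have h1 := hc τ hτ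
  rw [hc0, div_eq_zero_iff] at h1
  rcases h1 with h1 | h1
  · exact pow_eq_zero_iff (two_ne_zero) |>.1 h1
  · exact absurd h1 (pow_ne_zero v (hQne τ hτ))

end Pool.Agent.LibZQ46
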