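import Pool.Agent.LibZQ46.T3

/-!
ZQ46 R3D. The relation between `zz`, `hh` at `τ` and at `11 τ`, and its verification on the first 19
coefficients (done). The last two exponents of the monomials are `0`.
-/

namespace Pool.Agent.LibZQ46

open Pool.Agent.LibZP46

/-- The relation for `b = 11`. -/
def R33 : Poly6 :=
  [(-3022963146231657695, 0, 9, 0, 0, 0, 0), (-3022963146231657695, 9, 0, 0, 0, 0, 0),
   (43494336069742680254, 1, 8, 0, 0, 0, 0), (43494336069742680254, 8, 1, 0, 0, 0, 0),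
   (-125134339811355921145, 2, 7, 0, 0, 0, 0), (-125134339811355921145, 7, 2, 0, 0, 0, 0),
   (143278354209358097565, 3, 6, 0, 0, 0, 0), (143278354209358097565, 6, 3, 0, 0, 0, 0),
   (-62019576005165005379, 4, 5, 0, 0, 0, 0), (-62019576005165005379, 5, 4, 0, 0, 0, 0),
   (76285449904121943867360, 0, 6, 0, 1, 0, 0), (76285449904121943867360, 6, 0, 1, 0, 0, 0),
   (-22178941244517312779040, 0, 6, 1, 0, 0, 0), (-22178941244517312779040, 6, 0, 0, 1, 0, 0),
   (81669249721555684917696, 1, 5, 0, 1, 0, 0), (81669249721555684917696, 5, 1, 1, 0, 0, 0),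
   (-147304774359444992275008, 1, 5, 1, 0, 0, 0), (-147304774359444992275008, 5, 1, 0, 1, 0, 0),
   (414477760051991348555040, 2, 4, 0, 1, 0, 0), (414477760051991348555040, 4, 2, 1, 0, 0, 0),
   (57707498159517599956512, 2, 4, 1, 0, 0, 0), (57707498159517599956512, 4, 2, 0, 1, 0, 0),
   (109805255324835361441920, 3, 3, 0, 1, 0, 0), (109805255324835361441920, 3, 3, 1, 0, 0, 0),
   (139752193750892132423143680, 0, 3, 0, 2, 0, 0), (139752193750892132423143680, 3, 0, 2, 0, 0, 0),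
   (27027308285616948427768320, 0, 3, 1, 1, 0, 0), (27027308285616948427768320, 3, 0, 1, 1, 0, 0),
   (-40086354399415751980650240, 0, 3, 2, 0, 0, 0), (-40086354399415751980650240, 3, 0, 0, 2, 0, 0),
   (-21694138190802373938326784, 1, 2, 0, 2, 0, 0), (-21694138190802373938326784, 2, 1, 2, 0, 0, 0),
   (100604575997448687102150144, 1, 2, 1, 1, 0, 0), (100604575997448687102150144, 2, 1, 1, 1, 0, 0),
   (28420550615921025998304000, 1, 2, 2, 0, 0, 0), (28420550615921025998304000, 2, 1, 0, 2, 0, 0),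
   (2180756477146049403898429440, 0, 0, 0, 3, 0, 0), (2180756477146049403898429440, 0, 0, 3, 0, 0, 0),
   (6202182310267516355584327680, 0, 0, 1, 2, 0, 0), (6202182310267516355584327680, 0, 0, 2, 1, 0, 0)]

theorem R33_vanish : evL 19 R33 zzL ((exdL 19 11 zzL).map fun x => 11 * x) hhL
    ((exdL 19 11 hhL).map fun x => 1331 * x) [1] [1] = List.replicate 19 0 := by
  decide +kernel

theorem R33_deg : ∀ M ∈ R33, M.2.1 + M.2.2.1 + 3 * (M.2.2.2.1 + M.2.2.2.2.1) = 9 ∧
    M.2.2.2.2.2.1 = 0 ∧ M.2.2.2.2.2.2 = 0 ∧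
      (M.2.1 + M.2.2.1 + M.2.2.2.1 + M.2.2.2.2.1) % 2 = 1 := by
  decide +kernel

theorem R33_perm : (R33.map fun M => ((M.1, M.2.2.1, M.2.1, M.2.2.2.2.1, M.2.2.2.1, M.2.2.2.2.2.2,
    M.2.2.2.2.2.1) : ℤ × ℕ × ℕ × ℕ × ℕ × ℕ × ℕ)).Perm R33 :=
  List.isPerm_iff.1 (by decide +kernel)

end Pool.Agent.LibZQ46
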