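import Pool.Agent.LibZQ46.P5
import Pool.Agent.LibZQ46.P11
import Pool.Agent.LibZQ46.R3D

/-!
ZQ46 P12. The relation at level 33.

Plan (model: LibZP46/G3.lean `rel_of_data`, LibZP46/G5.lean). Apply `vanish D3_ok 11` (`v = 3`,
`m = 19`, `(1 + 11) * 3 = 36 < 38`, `D3.c * 3 = 9`) to
`P τ = ev6 R33 (zz τ) (11 * zz (11 * τ)) (hh τ) (1331 * hh (11 * τ)) 1 1`. `Hol`: `ev6_hol`. The
transformation under `W` (level `3 * 11`): `pair_act 3 11` with `zz_mod` (`r = 1`, sign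
`s = chi3 e'`) and `hh_mod` (`r = 3`, sign `s ^ 3 = s`): with `l = jm W τ ^ 2 / e` the four values get
the factors `l s`, `l s`, `l^3 s`, `l^3 s`, and in the second alternative they are exchanged in pairs.
`scale33`: `ev6 R33 (l*(s*a1)) (l*(s*a2)) (l^3*(s*b1)) (l^3*(s*b2)) 1 1 = l^9 * s * ev6 R33 a1 a2 b1 b2 1 1`
for `s ^ 2 = 1` (as `G5_scale`: from `R33_deg`, monomial by monomial), `swap33` from `R33_perm` (as
`G5_swap`). The series: `ev6_hasQ` with `toC 1 = 1` for the constant function `1` (`hasQ_const`),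
`HasQ.dil`, `HasQ.const_mul`; the first 19 coefficients vanish by `App.ev6`, `app_zz`, `app_hh`,
`App.exd`, `App.const_mul`, `R33_vanish` (`App 19 (1 : PowerSeries ℤ) [1]`).
-/

namespace Pool.Agent.LibZQ46

open Complex Pool.Agent.LibZP46

private theorem P12_hol_dil (c : ℂ) (b : ℕ) (hb : 0 < b) {F : ℂ → ℂ} (hF : Hol F) :
    Hol (fun τ => c * F ((b : ℂ) * τ)) := by
  have hb' : (0 : ℝ) < b := by exact_mod_cast hb
  have h : DifferentiableOn ℂ (fun τ : ℂ => F ((b : ℂ) * τ)) {τ | 0 < τ.im} := by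
    refine DifferentiableOn.comp (t := {τ : ℂ | 0 < τ.im}) hF
      ((differentiable_const _).mul differentiable_id).differentiableOn ?_
    intro τ hτ
    simp only [Set.mem_ofPred_eq, mul_im, natCast_re, natCast_im, zero_mul, add_zero] at hτ ⊢
    exact mul_pos hb' hτ
  exact (differentiableOn_const _).mul h

private theorem P12_series (c : ℤ) (b : ℕ) (hb : 0 < b) {F : ℂ → ℂ} {a : PowerSeries ℤ}
    (h : HasQ F (toC a)) :
    HasQ (fun τ => (c : ℂ) * F ((b : ℂ) * τ)) (toC (PowerSeries.C c * exd b a)) := by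
  have h1 := (h.dil b hb).const_mul (c : ℂ)
  refine h1.of_eq ?_
  rw [toC_mul, toC_C, toC_exd]

private theorem P12_one : HasQ (fun _ => (1 : ℂ)) (toC 1) := by
  have h := hasQ_const 1
  refine h.of_eq ?_
  unfold toC
  rw [map_one, map_one]

private theorem P12_appone : App 19 (1 : PowerSeries ℤ) [1] := by
  intro n _
  rw [PowerSeries.coeff_one]
  rcases n with _ | n
  · simp
  · simp

theorem scale33 {s : ℂ} (hs : s ^ 2 = 1) (l a1 a2 b1 b2 : ℂ) :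
    ev6 R33 (l * (s * a1)) (l * (s * a2)) (l ^ 3 * (s * b1)) (l ^ 3 * (s * b2)) 1 1 =
      l ^ 9 * s * ev6 R33 a1 a2 b1 b2 1 1 := by
  have hP := R33_deg
  unfold ev6
  rw [← List.sum_map_mul_left]
  congr 1
  refine List.map_congr_left fun M hM => ?_
  obtain ⟨h1, h2, h3, h4⟩ := hP M hM
  obtain ⟨c, i, j, k, m, n, o⟩ := M
  simp only at h1 h2 h3 h4 ⊢
  have e1 : s ^ (i + j + k + m) = s := by
    rw [pow_eq_pow_mod _ hs, h4, pow_one]
  have e3 : (c : ℂ) * ((l * (s * a1)) ^ i * (l * (s * a2)) ^ j *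
      ((l ^ 3 * (s * b1)) ^ k * (l ^ 3 * (s * b2)) ^ m) * (1 ^ n * 1 ^ o)) =
      l ^ (i + j + 3 * (k + m)) * s ^ (i + j + k + m) *
        ((c : ℂ) * (a1 ^ i * a2 ^ j * (b1 ^ k * b2 ^ m) * (1 ^ n * 1 ^ o))) := by
    simp only [mul_pow, pow_add, mul_add, one_pow, ← pow_mul]
    ring
  rw [e3, h1, e1]

theorem swap33 (a1 a2 b1 b2 : ℂ) : ev6 R33 a2 a1 b2 b1 1 1 = ev6 R33 a1 a2 b1 b2 1 1 := by
  have hP := R33_perm
  unfold ev6
  have h1 := (hP.map fun m : ℤ × ℕ × ℕ × ℕ × ℕ × ℕ × ℕ => (m.1 : ℂ) * (a1 ^ m.2.1 * a2 ^ m.2.2.1 *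
    (b1 ^ m.2.2.2.1 * b2 ^ m.2.2.2.2.1) * ((1 : ℂ) ^ m.2.2.2.2.2.1 * 1 ^ m.2.2.2.2.2.2))).sum_eq
  rw [← h1, List.map_map]
  congr 1
  refine List.map_congr_left fun M _ => ?_
  simp only [Function.comp_apply]
  ring

private theorem P12_chi (e : ℤ) : ((chi3 e : ℤ) : ℂ) ^ 2 = 1 := by
  unfold chi3
  split_ifs <;> simp

theorem rel33 {τ : ℂ} (hτ : 0 < τ.im) :
    ev6 R33 (zz τ) (11 * zz (11 * τ)) (hh τ) (1331 * hh (11 * τ)) 1 1 = 0 := by
  have hz := P12_series 11 11 (by norm_num) hasQ_zz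
  have hh' := P12_series 1331 11 (by norm_num) hasQ_hh
  push_cast at hz hh'
  have hzl := P12_hol_dil 11 11 (by norm_num) zz_hol
  have hhl := P12_hol_dil 1331 11 (by norm_num) hh_hol
  push_cast at hzl hhl
  refine vanish D3_ok 11 (by norm_num) (by decide) 3
    (fun τ => ev6 R33 (zz τ) (11 * zz (11 * τ)) (hh τ) (1331 * hh (11 * τ)) 1 1)
    ?_ ?_
    (ev6 R33 zzS (PowerSeries.C (11 : ℤ) * exd 11 zzS) hhS (PowerSeries.C (1331 : ℤ) * exd 11 hhS)
      1 1) ?_ 19 ?_ (by norm_num) hτ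
  · exact ev6_hol R33 zz_hol hzl hh_hol hhl (differentiableOn_const _) (differentiableOn_const _)
  · intro e he0 he W hW τ hτ
    change ev6 R33 (zz (act W τ)) (11 * zz (11 * act W τ)) (hh (act W τ))
      (1331 * hh (11 * act W τ)) 1 1 ^ 2 = ((jm W τ ^ 2 / (e : ℂ)) ^ (3 * 3)) ^ 2 *
        ev6 R33 (zz τ) (11 * zz (11 * τ)) (hh τ) (1331 * hh (11 * τ)) 1 1 ^ 2
    obtain ⟨e', -, -, h | h⟩ := pair_act 3 11 (by norm_num) (by norm_num) he0 he hW
    · obtain ⟨p2, q2⟩ := h _ _ _ zz_mod τ hτ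
      obtain ⟨p3, q3⟩ := h _ _ _ hh_mod τ hτ
      have hs := P12_chi e'
      obtain ⟨s, hsd⟩ : ∃ s : ℂ, s = ((chi3 e' : ℤ) : ℂ) := ⟨_, rfl⟩
      obtain ⟨l, hl⟩ : ∃ l : ℂ, l = jm W τ ^ 2 / (e : ℂ) := ⟨_, rfl⟩
      rw [← hsd] at hs
      have hs3 : s ^ 3 = s := by rw [pow_succ, hs, one_mul]
      have hc3 : (((chi3 e' ^ 3 : ℤ)) : ℂ) = s := by push_cast; rw [← hsd, hs3]
      simp only [hc3] at p3 q3
      rw [← hsd] at p2 q2
      rw [← hl] at p2 q2 p3 q3 ⊢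
      have z3 : ∀ x : ℂ, x ^ (3 : ℤ) = x ^ 3 := fun x => by norm_cast
      simp only [zpow_one, z3] at p2 q2 p3 q3
      push_cast at q2 q3
      have n11 : (11 : ℂ) ^ 3 = 1331 := by norm_num
      rw [n11] at q3
      have key := scale33 hs l (zz τ) (11 * zz (11 * τ)) (hh τ) (1331 * hh (11 * τ))
      have r2 : zz (act W τ) = l * (s * zz τ) := by rw [p2]; ring
      have r3 : 11 * zz (11 * act W τ) = l * (s * (11 * zz (11 * τ))) := by rw [q2]; ring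
      have r4 : hh (act W τ) = l ^ 3 * (s * hh τ) := by rw [p3]; ring
      have r5 : 1331 * hh (11 * act W τ) = l ^ 3 * (s * (1331 * hh (11 * τ))) := by rw [q3]; ring
      rw [r2, r3, r4, r5, key]
      calc _ = (l ^ (3 * 3)) ^ 2 * s ^ 2 *
            ev6 R33 (zz τ) (11 * zz (11 * τ)) (hh τ) (1331 * hh (11 * τ)) 1 1 ^ 2 := by ring
        _ = _ := by rw [hs, mul_one]
    · obtain ⟨p2, q2⟩ := h _ _ _ zz_mod τ hτ
      obtain ⟨p3, q3⟩ := h _ _ _ hh_mod τ hτ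
      have hs := P12_chi e'
      obtain ⟨s, hsd⟩ : ∃ s : ℂ, s = ((chi3 e' : ℤ) : ℂ) := ⟨_, rfl⟩
      obtain ⟨l, hl⟩ : ∃ l : ℂ, l = jm W τ ^ 2 / (e : ℂ) := ⟨_, rfl⟩
      rw [← hsd] at hs
      have hs3 : s ^ 3 = s := by rw [pow_succ, hs, one_mul]
      have hc3 : (((chi3 e' ^ 3 : ℤ)) : ℂ) = s := by push_cast; rw [← hsd, hs3]
      simp only [hc3] at p3 q3
      rw [← hsd] at p2 q2
      rw [← hl] at p2 q2 p3 q3 ⊢
      have z3 : ∀ x : ℂ, x ^ (3 : ℤ) = x ^ 3 := fun x => by norm_cast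
      simp only [zpow_one, z3] at p2 q2 p3 q3
      push_cast at p2 q2 p3 q3
      have n11 : (11 : ℂ) ^ 3 = 1331 := by norm_num
      rw [n11] at p3 q3
      have key := scale33 hs l (11 * zz (11 * τ)) (zz τ) (1331 * hh (11 * τ)) (hh τ)
      rw [swap33 (zz τ) (11 * zz (11 * τ)) (hh τ) (1331 * hh (11 * τ))] at key
      have r2 : zz (act W τ) = l * (s * (11 * zz (11 * τ))) := by rw [p2]; ring
      have r3 : 11 * zz (11 * act W τ) = l * (s * zz τ) := by rw [q2]; ring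
      have r4 : hh (act W τ) = l ^ 3 * (s * (1331 * hh (11 * τ))) := by rw [p3]; ring
      have r5 : 1331 * hh (11 * act W τ) = l ^ 3 * (s * hh τ) := by rw [q3]; ring
      rw [r2, r3, r4, r5, key]
      calc _ = (l ^ (3 * 3)) ^ 2 * s ^ 2 *
            ev6 R33 (zz τ) (11 * zz (11 * τ)) (hh τ) (1331 * hh (11 * τ)) 1 1 ^ 2 := by ring
        _ = _ := by rw [hs, mul_one]
  · exact ev6_hasQ R33 hasQ_zz hz hasQ_hh hh' P12_one P12_one
  · have h := App.ev6 R33 app_zz (App.const_mul (11 : ℤ) (App.exd (by norm_num : 0 < 11) app_zz))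
      app_hh (App.const_mul (1331 : ℤ) (App.exd (by norm_num : 0 < 11) app_hh)) P12_appone P12_appone
    rw [R33_vanish] at h
    refine App.X_pow_dvd h ?_
    intro n hn
    rw [List.getD_replicate _ hn]

end Pool.Agent.LibZQ46
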