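import Pool.Agent.LibZQ46.R3D

/-!
ZQ46 P13. The evaluation of the relation at the CM point (done).
-/

namespace Pool.Agent.LibZQ46

open Complex Pool.Agent.LibZP46

private theorem P13_eval (a β l : ℂ) : ev6 R33 a (l * a) β (l ^ 3 * β) 1 1 =
    ((-127603306644958331217838080 / 1331) + (1009943330903475549467443200 / 14641) * l) * ((a ^ 3 + 110592 * β) * β ^ 2) +
    (11 * l ^ 2 - 19 * l + 11) * (
    ((17014491759560623522631958528000 / 14641) * l ^ 0 + (1748625541986567594738047385600 / 1331) * l ^ 1 + (133961930067637692375131750400 / 121) * l ^ 2 + (12786075940834033383596359680 / 11) * l ^ 3 + (900607543869495387712389120) * l ^ 4 + (393224308426034452994457600) * l ^ 5 + (342432835254338336149340160) * l ^ 6 + (198250588831459036718039040) * l ^ 7) * a ^ 0 * β ^ 3 +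
    ((186137773189082386586422076160 / 14641) * l ^ 0 + (26594908016612597626128178176 / 1331) * l ^ 1 + (2950357289226015321601288704 / 121) * l ^ 2 + (230427569412496183920641280 / 11) * l ^ 3 + (20945593930440890338963200) * l ^ 4 + (24376662842120856329255424) * l ^ 5 + (19972364968331606634034176) * l ^ 6 + (12704744886444739311194880) * l ^ 7) * a ^ 3 * β ^ 2 +
    ((6935040900374722169760) * l ^ 0 + (19403184257152309649376) * l ^ 1 + (64259346457614844365984) * l ^ 2 + (99556260904211335043040) * l ^ 3 + (99556260904211335043040) * l ^ 4 + (64259346457614844365984) * l ^ 5 + (19403184257152309649376) * l ^ 6 + (6935040900374722169760) * l ^ 7) * a ^ 6 * β ^ 1 +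
    ((-274814831475605245) * l ^ 0 + (3479350388336925509) * l ^ 1 + (-5091247207883879889) * l ^ 2 + (751982089805290825) * l ^ 3 + (751982089805290825) * l ^ 4 + (-5091247207883879889) * l ^ 5 + (3479350388336925509) * l ^ 6 + (-274814831475605245) * l ^ 7) * a ^ 9 * β ^ 0) := by
  simp only [ev6, R33, List.map_cons, List.map_nil, List.sum_cons, List.sum_nil]
  push_cast
  ring

theorem value33 {a β l : ℂ} (hβ : β ≠ 0) (hl : 11 * l ^ 2 - 19 * l + 11 = 0) (hi : l.im ≠ 0)
    (h : ev6 R33 a (l * a) β (l ^ 3 * β) 1 1 = 0) : a ^ 3 = -110592 * β := by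
  rw [P13_eval, hl, zero_mul, add_zero] at h
  have h1 : ((-127603306644958331217838080 / 1331) + (1009943330903475549467443200 / 14641) * l : ℂ) ≠ 0 := by
    intro h0
    apply hi
    have h2 := congrArg Complex.im h0
    have h3 : ((-127603306644958331217838080 / 1331) + (1009943330903475549467443200 / 14641) * l : ℂ).im = ((1009943330903475549467443200 / 14641) : ℝ) * l.im := by
      simp [Complex.add_im, Complex.mul_im]
    rw [h3] at h2
    simpa using h2
  rcases mul_eq_zero.1 h with h2 | h2
  · exact absurd h2 h1
  · rcases mul_eq_zero.1 h2 with h3 | h3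
    · linear_combination h3
    · exact absurd (pow_eq_zero_iff (two_ne_zero) |>.1 h3) hβ

end Pool.Agent.LibZQ46
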