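import Pool.Agent.LibZQ46.P12
import Pool.Agent.LibZQ46.P13

/-!
ZQ46 P14. The value of the Hauptmodul at the CM point: `t = -48 ^ 3`.

Plan. `τ₀ = tauC`, `3 τ₀^2 + 3 τ₀ + 11 = 0` (`(sqrt 123)^2 = 123`, `I^2 = -1`), `im τ₀ = sqrt 123 / 6`.
Put `τ₁ = (τ₀ + 1) / 11`: `33 τ₁^2 - 3 τ₁ + 1 = 0`, `im τ₁ > 0`. `W = (0, -1; 3, 0)` is in
`ALM 3 3 1`, `act W τ₁ = -1 / (3 τ₁) = 11 τ₁ - 1 = τ₀`, `jm W τ₁ = 3 τ₁`, and `(1, -1; 0, 1)` is in
`ALM 3 1 1` and maps `11 τ₁` to `τ₀` (or `ModN.add_one`), `jm = 1`. With `l = 1 - 3 τ₁`: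
`33 τ₁^2 = 3 τ₁ - 1 = -l`; `zz_mod`: `zz τ₀ = -(3 τ₁)^2 / 3 * zz τ₁ = -3 τ₁^2 zz τ₁ = (l / 11) zz τ₁`
and `zz τ₀ = zz (11 τ₁)`; so `11 zz (11 τ₁) = l zz τ₁`. `hh_mod`: `hh (11 τ₁) = hh τ₀ =
-(3 τ₁^2)^3 hh τ₁ = (l / 11)^3 hh τ₁`, so `1331 hh (11 τ₁) = l ^ 3 hh τ₁`. Insert in `rel33` at `τ₁`:
`value33` (`11 l^2 - 19 l + 11 = 0` follows from `33 τ₁^2 - 3 τ₁ + 1 = 0`; `l.im = -3 τ₁.im ≠ 0`,
`hh_ne`) gives `zz τ₁ ^ 3 = -110592 hh τ₁`. Finally `D3.t τ₀ = zz τ₀ ^ 3 / hh τ₀ =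
(l/11)^3 zz τ₁^3 / ((l/11)^3 hh τ₁) = -110592` (`l ≠ 0` since `l.im ≠ 0`).
-/

namespace Pool.Agent.LibZQ46

open Complex Pool.Agent.LibZP46

theorem tauC_im_pos : 0 < tauC.im := by
  have h : tauC.im = Real.sqrt 123 / 6 := by
    unfold tauC
    have h6 : (6 : ℂ) = ((6 : ℝ) : ℂ) := by norm_num
    rw [h6, Complex.div_ofReal_im]
    simp
  rw [h]
  positivity

theorem tauC_sq : 3 * tauC ^ 2 + 3 * tauC + 11 = 0 := by
  have h : ((Real.sqrt 123 : ℝ) : ℂ) ^ 2 = 123 := by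
    rw [← Complex.ofReal_pow, Real.sq_sqrt (by norm_num)]
    norm_num
  have hI := Complex.I_sq
  unfold tauC
  linear_combination (1 / 12 * I ^ 2) * h + (123 / 12) * hI

theorem tval : D3.t tauC = ((-110592 : ℤ) : ℂ) := by
  have him := tauC_im_pos
  have hsq := tauC_sq
  set τ₁ : ℂ := (tauC + 1) / 11 with hτ₁
  have h11 : 11 * τ₁ = tauC + 1 := by
    rw [hτ₁]
    ring
  have hq : 33 * τ₁ ^ 2 - 3 * τ₁ + 1 = 0 := by
    rw [hτ₁]
    linear_combination (1 / 11) * hsq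
  have him₁ : 0 < τ₁.im := by
    have h1 : (11 * τ₁).im = 11 * τ₁.im := by simp
    rw [h11, Complex.add_im, Complex.one_im, add_zero] at h1
    linarith
  have hne : τ₁ ≠ 0 := by
    intro h0
    rw [h0] at him₁
    simp at him₁
  have hW : ALM 3 3 1 !![0, -1; 3, 0] := ⟨by simp, by simp, by simp, by simp [Matrix.det_fin_two]⟩
  have hj : jm !![0, -1; 3, 0] τ₁ = 3 * τ₁ := by
    simp [jm]
  have hact : act !![0, -1; 3, 0] τ₁ = tauC := by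
    unfold act
    rw [hj]
    have h1 : tauC = 11 * τ₁ - 1 := by rw [h11]; ring
    rw [h1, div_eq_iff (by simpa using hne)]
    simp
    linear_combination (-1 : ℂ) * hq
  have hchi : chi3 3 = -1 := by simp [chi3]
  have hchi1 : chi3 1 = 1 := by simp [chi3]
  have hz := zz_mod 3 (by norm_num) (by norm_num) _ hW τ₁ him₁
  have hh' := hh_mod 3 (by norm_num) (by norm_num) _ hW τ₁ him₁
  rw [hact, hj, hchi] at hz
  rw [hact, hj] at hh'
  simp only [hchi] at hh'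
  set l : ℂ := 1 - 3 * τ₁ with hl
  have hz1 : zz tauC = l / 11 * zz τ₁ := by
    rw [hz, zpow_one]
    push_cast
    have : (-1 : ℂ) * ((3 * τ₁) ^ 2 / 3) = l / 11 := by
      rw [hl]
      linear_combination (-1 / 11 : ℂ) * hq
    rw [this]
  have hh1 : hh tauC = (l / 11) ^ 3 * hh τ₁ := by
    rw [hh']
    have h3 : ((3 * τ₁) ^ 2 / ((3 : ℤ) : ℂ)) ^ (3 : ℤ) = ((3 * τ₁) ^ 2 / 3) ^ 3 := by
      norm_cast
    rw [h3]
    push_cast
    have : (-1 : ℂ) * ((3 * τ₁) ^ 2 / 3) = l / 11 := by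
      rw [hl]
      linear_combination (-1 / 11 : ℂ) * hq
    rw [← this]
    ring
  have ht1 : zz (11 * τ₁) = zz tauC := by
    rw [h11]
    exact zz_mod.add_one (by norm_num) hchi1 him
  have ht2 : hh (11 * τ₁) = hh tauC := by
    rw [h11]
    exact hh_mod.add_one (by norm_num) (by simp [hchi1]) him
  have hrel := rel33 him₁
  have e1 : 11 * zz (11 * τ₁) = l * zz τ₁ := by
    rw [ht1, hz1]
    ring
  have e2 : 1331 * hh (11 * τ₁) = l ^ 3 * hh τ₁ := by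
    rw [ht2, hh1]
    ring
  rw [e1, e2] at hrel
  have hlim : l.im ≠ 0 := by
    have : l.im = -3 * τ₁.im := by
      rw [hl]
      simp
    rw [this]
    have := him₁.ne'
    simpa using this
  have hv := value33 (hh_ne him₁) (by rw [hl]; linear_combination 3 * hq) hlim hrel
  have hl0 : l ≠ 0 := by
    intro h0
    apply hlim
    rw [h0]
    rfl
  show zz tauC ^ 3 / hh tauC = _
  rw [hz1, hh1, mul_pow, hv]
  have hhne := hh_ne him₁
  field_simp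
  push_cast
  ring

end Pool.Agent.LibZQ46
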