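import Pool.Agent.LibZP46.B1
import Pool.Agent.LibZP46.A7
import Pool.Agent.LibZP46.A2
import Pool.Agent.LibZQ46.Defs

/-!
ZQ46 P2. The form `zz` of weight 2 and level 3.

Plan (model: LibZP46/B2.lean). `alm3_one`: for `W` in `ALM 3 e 1` with `e = 1`: `W = (a, b; 3 c, d)`,
`a d - 3 b c = 1`; `3 * act W τ = act (a, 3 b; c, d) (3 τ)`, `jm` the same. For `e = 3`:
`W = (3 x, y; 3 z, 3 w)`, `3 x w - y z = 1`: `act W τ = act (x, y; z, 3 w) (3 τ)` with
`jm (x, y; z, 3 w) (3 τ) = jm W τ`, and `3 * act W τ = act (3 x, y; z, w) τ`,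
`jm (3 x, y; z, w) τ = jm W τ / 3`. These four facts (existence of the matrices of determinant 1) are
stated as `act3_one`, `act3_three` (they are used again in P3 and P4). `zz_mod`: insert `EE_act`; with
`j = jm W τ`, `κ = 6 i / π`: for `e = 1`: `3 EE (3 W τ) - EE (W τ) = j^2 (3 EE (3 τ) - EE τ)`
(the terms `κ * W 1 0 * j` cancel); for `e = 3`: `3 EE (3 W τ) - EE (W τ) = 3 ((j/3)^2 EE τ - κ z j / 3)
- (j^2 EE (3 τ) - κ z j) = -(j^2 / 3) (3 EE (3 τ) - EE τ)`. The divisors `e` of 3: `interval_cases e`.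
`hasSum_zz`: `hasSum_EE_mul 3`, `hasSum_EE_mul 1`: `(3 (-24 sgd 3 n) + 24 sgd 1 n) / 2 =
12 (sgd 1 n - 3 sgd 3 n)` (see `hasSum_z2` of the model).
-/

namespace Pool.Agent.LibZQ46

open Complex Pool.Agent.LibZP46

private theorem P2_hs {f g : ℕ → ℂ} {a : ℂ} (h : HasSum f a) (hfg : ∀ n, f n = g n) :
    HasSum g a := (funext hfg : f = g) ▸ h

private theorem P2_im {τ : ℂ} (hτ : 0 < τ.im) : 0 < (3 * τ).im := by
  have : (3 * τ).im = 3 * τ.im := by simp
  rw [this]
  positivity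

private theorem P2_sgd0 (d : ℕ) : sgd d 0 = 0 := by
  simp [sgd, sg]

private theorem P2_coeff (c : ℤ) (A : PowerSeries ℤ) (n : ℕ) :
    PowerSeries.coeff n (toC (1 + PowerSeries.C c * A)) =
      (if n = 0 then 1 else 0) + (c : ℂ) * ((PowerSeries.coeff n A : ℤ) : ℂ) := by
  unfold toC
  rw [PowerSeries.coeff_map, map_add, PowerSeries.coeff_C_mul, PowerSeries.coeff_one]
  split_ifs <;> simp

/-- The matrices for `e = 1`. -/
theorem act3_one {W : Mat} (hW : ALM 3 1 1 W) {τ : ℂ} (hτ : 0 < τ.im) :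
    W.det = 1 ∧ ∃ γ : Mat, γ.det = 1 ∧ 3 * act W τ = act γ (3 * τ) ∧
      jm γ (3 * τ) = jm W τ ∧ 3 * γ 1 0 = W 1 0 := by
  obtain ⟨c, hc⟩ := hW.h10
  have hdet : W.det = 1 := by rw [hW.hdet]; norm_num
  have hdet' := hdet
  rw [Matrix.det_fin_two, hc] at hdet'
  refine ⟨hdet, !![W 0 0, 3 * W 0 1; c, W 1 1], ?_, ?_, ?_, ?_⟩
  · rw [Matrix.det_fin_two]
    simp only [Matrix.of_apply, Matrix.cons_val', Matrix.cons_val_zero, Matrix.cons_val_one,
      Matrix.cons_val_fin_one]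
    linear_combination hdet'
  · unfold act jm
    rw [hc]
    simp only [Matrix.of_apply, Matrix.cons_val', Matrix.cons_val_zero, Matrix.cons_val_one,
      Matrix.cons_val_fin_one]
    push_cast
    ring
  · unfold jm
    rw [hc]
    simp only [Matrix.of_apply, Matrix.cons_val', Matrix.cons_val_zero, Matrix.cons_val_one,
      Matrix.cons_val_fin_one]
    push_cast
    ring
  · rw [hc]
    simp

/-- The matrices for `e = 3`. -/
theorem act3_three {W : Mat} (hW : ALM 3 3 1 W) {τ : ℂ} (hτ : 0 < τ.im) :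
    (∃ γ : Mat, γ.det = 1 ∧ act W τ = act γ (3 * τ) ∧ jm γ (3 * τ) = jm W τ ∧
      3 * γ 1 0 = W 1 0) ∧
    (∃ γ : Mat, γ.det = 1 ∧ 3 * act W τ = act γ τ ∧ 3 * jm γ τ = jm W τ ∧
      3 * γ 1 0 = W 1 0) := by
  obtain ⟨x, hx⟩ := hW.h00
  obtain ⟨z, hz⟩ := hW.h10
  obtain ⟨w, hw⟩ := hW.h11
  have hdet := hW.hdet
  rw [Matrix.det_fin_two, hx, hz, hw] at hdet
  have hdet' : 3 * x * w - W 0 1 * z = 1 := by
    have h1 : (3 : ℤ) * (3 * x * w - W 0 1 * z) = 3 * 1 := by linear_combination hdet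
    exact mul_left_cancel₀ (by norm_num) h1
  refine ⟨⟨!![x, W 0 1; z, 3 * w], ?_, ?_, ?_, ?_⟩, ⟨!![3 * x, W 0 1; z, w], ?_, ?_, ?_, ?_⟩⟩
  · rw [Matrix.det_fin_two]
    simp only [Matrix.of_apply, Matrix.cons_val', Matrix.cons_val_zero, Matrix.cons_val_one,
      Matrix.cons_val_fin_one]
    linear_combination hdet'
  · unfold act jm
    rw [hx, hz, hw]
    simp only [Matrix.of_apply, Matrix.cons_val', Matrix.cons_val_zero, Matrix.cons_val_one,
      Matrix.cons_val_fin_one]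
    push_cast
    ring
  · unfold jm
    rw [hz, hw]
    simp only [Matrix.of_apply, Matrix.cons_val', Matrix.cons_val_zero, Matrix.cons_val_one,
      Matrix.cons_val_fin_one]
    push_cast
    ring
  · rw [hz]
    simp
  · rw [Matrix.det_fin_two]
    simp only [Matrix.of_apply, Matrix.cons_val', Matrix.cons_val_zero, Matrix.cons_val_one,
      Matrix.cons_val_fin_one]
    linear_combination hdet'
  · unfold act jm
    rw [hx, hz, hw]
    simp only [Matrix.of_apply, Matrix.cons_val', Matrix.cons_val_zero, Matrix.cons_val_one,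
      Matrix.cons_val_fin_one]
    push_cast
    rw [show (3 : ℂ) * z * τ + 3 * w = 3 * (z * τ + w) by ring, ← mul_div_assoc,
      mul_div_mul_left _ _ (by norm_num : (3 : ℂ) ≠ 0)]
  · unfold jm
    rw [hz, hw]
    simp only [Matrix.of_apply, Matrix.cons_val', Matrix.cons_val_zero, Matrix.cons_val_one,
      Matrix.cons_val_fin_one]
    push_cast
    ring
  · rw [hz]
    simp

theorem zz_hol : Hol zz := by
  have h1 := EE_hol
  have h3 : Hol (fun τ => EE (3 * τ)) := by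
    apply DifferentiableOn.comp EE_hol
    · exact (differentiable_id.const_mul (3 : ℂ)).differentiableOn
    · intro τ hτ
      exact P2_im hτ
  unfold Hol at *
  unfold zz
  exact ((h3.const_mul 3).sub h1).div_const 2

theorem zz_mod : ModN 3 chi3 1 zz := by
  intro e he0 he3 W hW τ hτ
  have hle : e ≤ 3 := Int.le_of_dvd (by norm_num) he3
  interval_cases e
  · obtain ⟨hdet, γ, hγ, h1, h2, h3⟩ := act3_one hW hτ
    have k1 := EE_act hdet hτ
    have k3 := EE_act hγ (P2_im hτ)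
    have h3C : 3 * ((γ 1 0 : ℤ) : ℂ) = ((W 1 0 : ℤ) : ℂ) := by exact_mod_cast h3
    have hχ : chi3 1 = 1 := by unfold chi3; norm_num
    unfold zz
    rw [h1, k1, k3, h2, hχ, zpow_one, ← h3C]
    push_cast
    ring
  · exfalso; revert he3; decide
  · obtain ⟨⟨γ, hγ, h1, h2, h3⟩, ⟨δ, hδ, h4, h5, h6⟩⟩ := act3_three hW hτ
    have k1 := EE_act hγ (P2_im hτ)
    have k3 := EE_act hδ hτ
    have h3C : 3 * ((γ 1 0 : ℤ) : ℂ) = ((W 1 0 : ℤ) : ℂ) := by exact_mod_cast h3
    have h6C : 3 * ((δ 1 0 : ℤ) : ℂ) = ((W 1 0 : ℤ) : ℂ) := by exact_mod_cast h6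
    have hγδ : ((γ 1 0 : ℤ) : ℂ) = ((δ 1 0 : ℤ) : ℂ) :=
      mul_left_cancel₀ (by norm_num : (3 : ℂ) ≠ 0) (h3C.trans h6C.symm)
    have hχ : chi3 3 = -1 := by unfold chi3; norm_num
    unfold zz
    rw [h4, h1, k1, k3, h2, hχ, zpow_one, hγδ, ← h5]
    push_cast
    ring

theorem hasSum_zz {τ : ℂ} (hτ : 0 < τ.im) :
    HasSum (fun n => PowerSeries.coeff n (toC zzS) * qq τ ^ n) (zz τ) := by
  have k1 := hasSum_EE_mul 1 (by norm_num) hτ
  have k3 := hasSum_EE_mul 3 (by norm_num) hτ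
  simp only [Nat.cast_one, one_mul, Nat.cast_ofNat] at k1 k3
  have hs := ((k3.mul_left (3 : ℂ)).sub k1).div_const 2
  unfold zz
  refine P2_hs hs ?_
  intro n
  have e1 : zzS = 1 + PowerSeries.C (12 : ℤ) * AT := by
    unfold zzS
    rw [map_ofNat]
  rw [e1, P2_coeff]
  unfold AT
  rw [PowerSeries.coeff_mk]
  by_cases hn : n = 0
  · subst hn
    simp only [if_true, P2_sgd0]
    norm_num
  · simp only [hn, if_false]
    push_cast
    ring

theorem hasQ_zz : HasQ zz (toC zzS) := ⟨0, fun _ h => hasSum_zz h⟩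

end Pool.Agent.LibZQ46
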