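import Pool.Agent.LibZP46.B3
import Pool.Agent.LibZQ46.P2

/-!
ZQ46 P4. The product `Δ(τ) Δ(3τ)`.

Plan (model: LibZP46/B3.lean, which gives `Del`, `Del_hol`, `Del_ne`, `Del_act`, `Del_tendsto`).
`PD3_mod`: `act3_one` (both factors get `j ^ 12`) and `act3_three`: `Del (W τ) = j^12 Del (3 τ)`,
`Del (3 W τ) = (j / 3)^12 Del τ`, product `j^24 / 3^12 = (j^2 / 3)^12`. `PD3_tendsto` as
`PD_tendsto` (the private lemma `B3_tend` there may be copied).
-/

namespace Pool.Agent.LibZQ46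

open Complex Filter Pool.Agent.LibZP46

noncomputable def PD3 (τ : ℂ) : ℂ := Del τ * Del (3 * τ)

private theorem P4_im {τ : ℂ} (hτ : 0 < τ.im) : 0 < ((3 : ℂ) * τ).im := by
  have h : ((3 : ℂ) * τ).im = 3 * τ.im := by simp
  rw [h]
  positivity

theorem PD3_hol : Hol PD3 := by
  have h3 : Hol (fun τ => Del (3 * τ)) := by
    have h : DifferentiableOn ℂ (Del ∘ fun τ => 3 * τ) {τ : ℂ | 0 < τ.im} :=
      DifferentiableOn.comp (g := Del) (t := {τ : ℂ | 0 < τ.im}) Del_hol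
        (differentiable_id.const_mul _).differentiableOn (fun τ hτ => P4_im hτ)
    exact h
  exact Del_hol.mul h3

theorem PD3_ne {τ : ℂ} (hτ : 0 < τ.im) : PD3 τ ≠ 0 :=
  mul_ne_zero (Del_ne hτ) (Del_ne (P4_im hτ))

theorem PD3_mod : ModN 3 (fun _ => 1) 12 PD3 := by
  intro e he he3 W hW τ hτ
  have h3 : e ≤ 3 := Int.le_of_dvd (by norm_num) he3
  have hz : ∀ x : ℂ, x ^ (12 : ℤ) = x ^ (12 : ℕ) := fun x => by norm_cast
  rw [hz]
  interval_cases e
  · obtain ⟨hdet, γ, hγ, h1, h2, -⟩ := act3_one hW hτ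
    rw [PD3, PD3, h1, Del_act hγ (P4_im hτ), h2, Del_act hdet hτ]
    push_cast
    ring
  · exfalso
    omega
  · obtain ⟨⟨γ, hγ, h1, h2, -⟩, δ, hδ, h4, h5, -⟩ := act3_three hW hτ
    have h6 : jm δ τ = jm W τ / 3 := by
      rw [← h5]
      field_simp
    rw [PD3, PD3, h4, Del_act hδ hτ, h6, h1, Del_act hγ (P4_im hτ), h2]
    push_cast
    ring

private theorem P4_tend (d : ℕ) (hd : 0 < d) :
    Tendsto (fun τ => Del ((d : ℂ) * τ) / qq τ ^ d) (comap Complex.im atTop) (nhds 1) := by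
  have h1 : Tendsto (fun τ : ℂ => (d : ℂ) * τ) (comap Complex.im atTop) (comap Complex.im atTop) := by
    rw [tendsto_comap_iff]
    have h2 : (Complex.im ∘ fun τ : ℂ => (d : ℂ) * τ) = fun τ => (d : ℝ) * τ.im := by
      funext τ
      simp
    rw [h2]
    exact tendsto_comap.const_mul_atTop (by exact_mod_cast hd)
  have h3 := Del_tendsto.comp h1
  refine h3.congr fun τ => ?_
  rw [Function.comp_apply, qq_nat_mul]

theorem PD3_tendsto :
    Tendsto (fun τ => PD3 τ / qq τ ^ 4) (comap Complex.im atTop) (nhds 1) := by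
  have h := (P4_tend 1 (by norm_num)).mul (P4_tend 3 (by norm_num))
  rw [mul_one] at h
  refine h.congr fun τ => ?_
  have hq := qq_ne τ
  rw [PD3]
  push_cast
  rw [one_mul]
  field_simp

end Pool.Agent.LibZQ46
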