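import Pool.Agent.LibZP46.T0
import Pool.Agent.LibZQ46.Defs

/-!
ZQ46 T3. The first 19 coefficients of `zzS` and `hhS`.

Plan (model: `app_z2`, `app_gS` at the end of LibZP46/T0.lean). `decide +kernel` for each of `AT`, `LT`
(`App 19 AT ATL`, `App 19 LT LTL`), then `App.add`, `App.mul`, `App.pow`, `App.const_mul` and a
final `decide +kernel` for the equality of the lists on the indices `< 19`.
-/

namespace Pool.Agent.LibZQ46

open Pool.Agent.LibZP46

def zzL : List ℤ := [1, 12, 36, 12, 84, 72, 36, 96, 180, 12, 216, 144, 84, 168, 288, 72, 372, 216,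
  36]

def hhL : List ℤ := [0, 1, -6, 9, 4, 6, -54, -40, 168, 81, -36, -564, 36, 638, 240, 54, -1136, 882,
  -486]

private theorem t3_coeff_zzS (n : ℕ) : PowerSeries.coeff n zzS =
    (if n = 0 then 1 else 0) + 12 * (sgd 1 n - 3 * sgd 3 n) := by
  have h4 : (12 : PowerSeries ℤ) = PowerSeries.C 12 := (map_ofNat PowerSeries.C 12).symm
  rw [zzS, map_add, PowerSeries.coeff_one, h4, PowerSeries.coeff_C_mul, AT, PowerSeries.coeff_mk]

private theorem t3_app_AT : App 19 AT [0, 1, 3, 1, 7, 6, 3, 8, 15, 1, 18, 12, 7, 14, 24, 6, 31, 18, 3] := by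
  intro n hn
  rw [AT, PowerSeries.coeff_mk]
  revert n
  decide +kernel

private theorem t3_app_LT : App 19 LT [0, 1, -32, -251, -1218, -3634, -8348, -19592, -39430, -61487, -120312, -187868, -267582, -433146, -647056, -791386, -1262734, -1656462, -2029136] := by
  intro n hn
  rw [LT, PowerSeries.coeff_mk]
  revert n
  decide +kernel

theorem app_zz : App 19 zzS zzL := by
  intro n hn
  rw [t3_coeff_zzS]
  revert n
  decide +kernel

theorem app_hh : App 19 hhS hhL := by
  have e : hhS = LT + (PowerSeries.C 26 * AT ^ 2 + PowerSeries.C 104 * AT ^ 3) := by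
    have h1 : (26 : PowerSeries ℤ) = PowerSeries.C 26 := (map_ofNat PowerSeries.C 26).symm
    have h2 : (104 : PowerSeries ℤ) = PowerSeries.C 104 := (map_ofNat PowerSeries.C 104).symm
    rw [← h1, ← h2, hhS]
    ring
  have h := t3_app_LT.add
    ((App.const_mul 26 (t3_app_AT.pow 2)).add (App.const_mul 104 (t3_app_AT.pow 3)))
  rw [← e] at h
  intro n hn
  rw [h n hn]
  revert n
  decide +kernel

end Pool.Agent.LibZQ46
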