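import Pool.Agent.LibZQ46.P3
import Pool.Agent.LibZQ46.P4
import Pool.Agent.LibZQ46.T3

/-!
ZQ46 P5. `hh ^ 4 = PD3`, and the data of level 3.

Plan (model: LibZP46/B4.lean; its private lemmas `B4_toC_cc`, `B4_shS_cc`, `B4_neBot`, `B4_bdd`,
`B4_const` may be copied with 6 replaced by 3, `Nat.prime_three.squarefree`). `hh_pow`:
`hh ^ 4 * PD3⁻¹` is holomorphic, of weight `4 * 3 - 12 = 0`, signs `(chi3 e ^ 3) ^ 4 = 1`, and tends
to `1` at the cusp (`hh τ / qq τ → coeff 1 hhS = 1`, `PD3_tendsto`). `D3_ok`: all fields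
(`app_zz`, `app_hh` for the coefficients; `chi3 e ^ 2 = 1` by `split_ifs`).
-/

namespace Pool.Agent.LibZQ46

open Complex Filter Pool.Agent.LibZP46

private theorem P5_chi_sq (e : ℤ) : chi3 e ^ 2 = 1 := by
  unfold chi3
  split_ifs <;> norm_num

private theorem P5_coeff0 : PowerSeries.constantCoeff hhS = 0 := by
  have h := app_hh 0 (by norm_num)
  rw [PowerSeries.coeff_zero_eq_constantCoeff_apply] at h
  simpa [hhL] using h

private theorem P5_coeff1 : PowerSeries.coeff 1 hhS = 1 := by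
  have h := app_hh 1 (by norm_num)
  simpa [hhL] using h

private theorem P5_toC_cc {a : PowerSeries ℤ} :
    PowerSeries.constantCoeff (toC a) = ((PowerSeries.constantCoeff a : ℤ) : ℂ) := by
  unfold toC
  rw [← PowerSeries.coeff_zero_eq_constantCoeff_apply, ← PowerSeries.coeff_zero_eq_constantCoeff_apply,
    PowerSeries.coeff_map]
  rfl

private theorem P5_shS_cc (a : PowerSeries ℤ) :
    PowerSeries.constantCoeff (shS a) = PowerSeries.coeff 1 a := by
  unfold shS
  rw [← PowerSeries.coeff_zero_eq_constantCoeff_apply, PowerSeries.coeff_mk]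

private theorem P5_hhq : HasQ (fun τ => hh τ / qq τ) (toC (shS hhS)) := by
  have h := hasQ_hh.shift (by rw [P5_toC_cc, P5_coeff0]; norm_num)
  rw [← toC_shS] at h
  exact h

private theorem P5_neBot : (comap Complex.im (atTop : Filter ℝ)).NeBot := by
  refine comap_neBot ?_
  intro t ht
  obtain ⟨y, hy⟩ := Filter.nonempty_of_mem ht
  exact ⟨⟨0, y⟩, hy⟩

private theorem P5_bdd {F : ℂ → ℂ} {c : ℂ} (h : Tendsto F (comap Complex.im atTop) (nhds c)) :
    Bdd F := by
  have h1 : ∀ᶠ τ in comap Complex.im (atTop : Filter ℝ), ‖F τ‖ ≤ ‖c‖ + 1 := by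
    have h2 := h.norm
    have h3 : ∀ᶠ x in nhds ‖c‖, x < ‖c‖ + 1 := gt_mem_nhds (by linarith)
    exact (h2.eventually h3).mono (fun τ hτ => hτ.le)
  rw [eventually_comap] at h1
  obtain ⟨Y, hY⟩ := eventually_atTop.mp h1
  exact ⟨Y, ‖c‖ + 1, fun τ hτ => hY τ.im hτ.le τ rfl⟩

private theorem P5_const {F : ℂ → ℂ} (hF : Hol F) (hm : ModN 3 (fun _ => 1) 0 F) {c : ℂ}
    (h : Tendsto F (comap Complex.im atTop) (nhds c)) {τ : ℂ} (hτ : 0 < τ.im) : F τ = c := by
  obtain ⟨c', hc'⟩ := rigid_mod 3 Nat.prime_three.squarefree F hF hm (P5_bdd h)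
  have := P5_neBot
  have h1 : Tendsto F (comap Complex.im atTop) (nhds c') := by
    refine (tendsto_const_nhds (x := c')).congr' ?_
    have h2 : ∀ᶠ τ in comap Complex.im (atTop : Filter ℝ), 0 < τ.im := by
      rw [eventually_comap]
      filter_upwards [eventually_gt_atTop 0] with y hy τ hτ
      rw [hτ]
      exact hy
    exact h2.mono (fun τ hτ => (hc' τ hτ).symm)
  rw [hc' τ hτ]
  exact tendsto_nhds_unique h1 h

theorem hh_pow {τ : ℂ} (hτ : 0 < τ.im) : hh τ ^ 4 = PD3 τ := by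
  have hhol : Hol (fun τ => hh τ ^ 4 * (PD3 τ)⁻¹) := by
    have h1 : DifferentiableOn ℂ hh {τ | 0 < τ.im} := hh_hol
    have h2 : DifferentiableOn ℂ PD3 {τ | 0 < τ.im} := PD3_hol
    exact (h1.pow 4).mul (h2.inv (fun τ hτ => PD3_ne hτ))
  have hmod : ModN 3 (fun _ => 1) 0 (fun τ => hh τ ^ 4 * (PD3 τ)⁻¹) := by
    have h := ((hh_mod.pow 4).mul (PD3_mod.inv (fun _ _ _ => by norm_num))).congr_chi
      (χ' := fun _ => 1) (fun e _ _ => by
        have h1 : (chi3 e ^ 3) ^ 4 = (chi3 e ^ 2) ^ 6 := by ring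
        rw [h1, P5_chi_sq]
        norm_num)
    have h0 : ((4 : ℕ) : ℤ) * 3 + -12 = 0 := by norm_num
    rw [h0] at h
    exact h
  have hlim : Tendsto (fun τ => hh τ ^ 4 * (PD3 τ)⁻¹) (comap Complex.im atTop) (nhds 1) := by
    have h1 := P5_hhq.tendsto
    rw [P5_toC_cc, P5_shS_cc, P5_coeff1] at h1
    have h2 := (h1.pow 4).mul (PD3_tendsto.inv₀ (by norm_num))
    have h3 : ((1 : ℤ) : ℂ) ^ 4 * (1 : ℂ)⁻¹ = 1 := by norm_num
    rw [h3] at h2
    refine h2.congr (fun τ => ?_)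
    have h4 := qq_ne τ
    by_cases h5 : PD3 τ = 0
    · simp [h5]
    · field_simp
  have h := P5_const hhol hmod hlim hτ
  have h5 := PD3_ne hτ
  field_simp at h
  exact h

theorem hh_ne {τ : ℂ} (hτ : 0 < τ.im) : hh τ ≠ 0 := by
  intro h
  have h1 := hh_pow hτ
  rw [h, zero_pow (by norm_num)] at h1
  exact PD3_ne hτ h1.symm

theorem D3_ok : D3.OK where
  sqf := Nat.prime_three.squarefree
  hc := by
    change 0 < 3
    norm_num
  chi1 := by
    change chi3 1 = 1
    unfold chi3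
    norm_num
  chi_sq := fun e _ _ => P5_chi_sq e
  zhol := zz_hol
  ghol := hh_hol
  gne := fun τ hτ => hh_ne hτ
  zmod := zz_mod
  gmod := hh_mod
  zq := hasQ_zz
  gq := hasQ_hh
  z0 := by
    have h := app_zz 0 (by norm_num)
    rw [PowerSeries.coeff_zero_eq_constantCoeff_apply] at h
    exact h
  g0 := P5_coeff0
  g1 := P5_coeff1

end Pool.Agent.LibZQ46
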