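import Pool.Agent.LibZP46.B5
import Pool.Agent.LibZP46.A9
import Pool.Agent.LibZQ46.P5

/-!
ZQ46 P6. The two differential identities of level 3.

Plan (model: LibZP46/B6.lean, line by line; its private lemmas may be copied). `t = D3.t`,
`t τ = zz τ ^ 3 / hh τ`, `A = D3.tS`, `G = shS hhS = 1 - 6 X + 9 X^2 + 4 X^3 + ...`,
`ivS G = 1 + 6 X + 27 X^2 + 104 X^3 + ...`, `A = 1 + 42 X + 783 X^2 + 8672 X^3 + ...`.
(1) `F = (DD t) ^ 2 * zz / hh - t ^ 2 * (t - 108)` is holomorphic, of weight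
`4 + 2 - 6 = 0`, signs `1 * chi3 e / chi3 e ^ 3 = 1`; `q ^ 3 F` has the series
`(dS A - A) ^ 2 * zzS * ivS G - A ^ 2 * (A - 108 X)`, divisible by `X ^ 4`. So `F = 0` and the series
is `0`.
(2) `F = (2 zz DD (DD zz) - 3 (DD zz) ^ 2) * zz ^ 2 / hh ^ 2 - 24 t`: weight `8 + 4 - 12 = 0`
(`RC_mod` has `r = 4`, signs `χ ^ 2`), all signs trivial; `q F` has the series
`shS R * zzS ^ 2 * ivS G ^ 2 - 24 A`, `R = 2 zzS dS (dS zzS) - 3 (dS zzS)^2 = 24 X + 144 X^2 + ...`,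
divisible by `X ^ 2`. So it is `0`.
(3) `xS_ode1`: write `x = D3.xS`, `y = dS x`, `X G = hhS = x zzS ^ 3` (`Dat.OK.gS_eq`), `x A = X`
(`Dat.OK.xS_mul_tS`). From (1): `(dS A - A)^2 zzS = G A^2 (A - 108 X)`; `x (dS A - A) = - A y`. So
`A^2 y^2 zzS = x^2 G A^2 (A - 108 X)`; multiply by `x X` and use `x A = X`: cancel to
`y ^ 2 = x ^ 2 (1 - 108 x) zzS ^ 2` (`zzS ≠ 0` since its constant coefficient is 1, `x ≠ 0`,
`X ≠ 0`; e.g. prove `X^2 x^2 zzS y^2 = X^2 x^2 zzS * rhs`, `mul_left_cancel₀`).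
`xS_ode2`: `R zzS^2 = X shS R zzS ^ 2 = 24 X A G^2`; times `X`: `X R zzS^2 = 24 A (X G)^2 =
24 A x^2 zzS^6 = 24 x X zzS ^ 6`; cancel `X zzS ^ 2`: `R = 24 x zzS ^ 4`.
-/

namespace Pool.Agent.LibZQ46

open Complex Filter Pool.Agent.LibZP46

private theorem P6_congr {m : ℕ} {a : PowerSeries ℤ} {l l' : List ℤ} (h : App m a l)
    (hl : ∀ n < m, l.getD n 0 = l'.getD n 0) : App m a l' := fun n hn => (h n hn).trans (hl n hn)

private theorem P6_sub {m : ℕ} {a b : PowerSeries ℤ} {l l' : List ℤ} (ha : App m a l)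
    (hb : App m b l') : App m (a - b) (addL l (l'.map fun x => -1 * x)) := by
  have h := ha.add (hb.const_mul (-1))
  have e : a - b = a + PowerSeries.C (-1) * b := by
    rw [map_neg, map_one]; ring
  rw [e]
  exact h

private theorem P6_X (m : ℕ) : App m PowerSeries.X [0, 1] := by
  intro n _
  rw [PowerSeries.coeff_X]
  rcases n with _ | _ | n
  · simp
  · simp
  · simp

private theorem P6_gS0 : PowerSeries.constantCoeff hhS = 0 := D3_ok.g0

private theorem P6_G0 : PowerSeries.constantCoeff (shS hhS) = 1 := by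
  have h : PowerSeries.coeff 1 hhS = 1 := D3_ok.g1
  rw [← PowerSeries.coeff_zero_eq_constantCoeff_apply, shS, PowerSeries.coeff_mk]
  exact h

private theorem P6_appG : App 4 (shS hhS) [1, -6, 9, 4] := by
  intro n hn
  rw [shS, PowerSeries.coeff_mk, app_hh (n + 1) (by omega)]
  interval_cases n <;> rfl

private theorem P6_appI : App 4 (ivS (shS hhS)) [1, 6, 27, 104] := by
  set B : PowerSeries ℤ := PowerSeries.mk fun n => ([1, 6, 27, 104] : List ℤ).getD n 0 with hB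
  have hBa : App 4 B [1, 6, 27, 104] := fun n _ => by rw [hB, PowerSeries.coeff_mk]
  have h1 : App 4 (shS hhS * B) [1] := P6_congr (P6_appG.mul hBa) (by decide)
  have hone : App 4 (1 : PowerSeries ℤ) [1] := by
    intro n _
    rw [PowerSeries.coeff_one]
    rcases n with _ | n
    · simp
    · simp
  have h2 : PowerSeries.X ^ 4 ∣ shS hhS * B - 1 :=
    (P6_sub h1 hone).X_pow_dvd (by decide)
  have h3 : PowerSeries.X ^ 4 ∣ B - ivS (shS hhS) := by
    have e : B - ivS (shS hhS) = (shS hhS * B - 1) * ivS (shS hhS) := by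
      have := ivS_mul (shS hhS) P6_G0
      linear_combination -B * this
    rw [e]
    exact h2.mul_right _
  intro n hn
  have h4 := PowerSeries.X_pow_dvd_iff.1 h3 n hn
  rw [map_sub, sub_eq_zero] at h4
  rw [← h4]
  exact hBa n hn

private theorem P6_tS : D3.tS = zzS ^ 3 * ivS (shS hhS) := rfl

private theorem P6_appZ : App 4 zzS [1, 12, 36, 12] :=
  P6_congr (app_zz.mono (by norm_num)) (by decide)

private theorem P6_appA : App 4 D3.tS [1, 42, 783, 8672] := by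
  rw [P6_tS]
  exact P6_congr ((P6_appZ.pow 3).mul P6_appI) (by decide)

private theorem P6_appdA : App 4 (dS D3.tS) [0, 42, 1566, 26016] := by
  intro n hn
  rw [dS, PowerSeries.coeff_mk, P6_appA n hn]
  interval_cases n <;> simp

/-- the series of `q ^ 3 F` -/
private noncomputable def P6_H : PowerSeries ℤ :=
  (dS D3.tS - D3.tS) ^ 2 * (zzS * ivS (shS hhS)) -
    D3.tS ^ 2 * (D3.tS - PowerSeries.C 108 * PowerSeries.X)

private theorem P6_Hdvd : PowerSeries.X ^ 4 ∣ P6_H := by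
  have h1 := (((P6_sub P6_appdA P6_appA).pow 2).mul (P6_appZ.mul P6_appI))
  have h2 := (P6_appA.pow 2).mul (P6_sub P6_appA ((P6_X 4).const_mul 108))
  exact (P6_sub h1 h2).X_pow_dvd (by decide)

private noncomputable def P6_R : PowerSeries ℤ :=
  PowerSeries.C 2 * (zzS * dS (dS zzS)) - PowerSeries.C 3 * dS zzS ^ 2

private theorem P6_R0 : PowerSeries.constantCoeff P6_R = 0 := by
  have h : ∀ a : PowerSeries ℤ, PowerSeries.constantCoeff (dS a) = 0 := by
    intro a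
    rw [← PowerSeries.coeff_zero_eq_constantCoeff_apply, dS, PowerSeries.coeff_mk]
    simp
  simp only [P6_R, map_sub, map_mul, map_pow, h]
  ring

private noncomputable def P6_H2 : PowerSeries ℤ :=
  shS P6_R * (zzS ^ 2 * ivS (shS hhS) ^ 2) - PowerSeries.C 24 * D3.tS

private theorem P6_H2dvd : PowerSeries.X ^ 2 ∣ P6_H2 := by
  have hz : App 3 zzS [1, 12, 36] := P6_congr (app_zz.mono (by norm_num)) (by decide)
  have hd : App 3 (dS zzS) [0, 12, 72] := by
    intro n hn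
    rw [dS, PowerSeries.coeff_mk, hz n hn]
    interval_cases n <;> simp
  have hdd : App 3 (dS (dS zzS)) [0, 12, 144] := by
    intro n hn
    rw [dS, PowerSeries.coeff_mk, hd n hn]
    interval_cases n <;> simp
  have hR : App 3 P6_R [0, 24, 144] :=
    P6_congr (P6_sub ((hz.mul hdd).const_mul 2) ((hd.pow 2).const_mul 3)) (by decide)
  have hsR : App 2 (shS P6_R) [24, 144] := by
    intro n hn
    rw [shS, PowerSeries.coeff_mk, hR (n + 1) (by omega)]
    rfl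
  have h1 := hsR.mul (((P6_appZ.mono (show 2 ≤ 4 by norm_num)).pow 2).mul
    ((P6_appI.mono (show 2 ≤ 4 by norm_num)).pow 2))
  have h2 := (P6_appA.mono (show 2 ≤ 4 by norm_num)).const_mul 24
  exact (P6_sub h1 h2).X_pow_dvd (by decide)

private theorem P6_gq : HasQ (fun τ => (hh τ / qq τ)⁻¹) (toC (ivS (shS hhS))) := by
  have h : HasQ (fun τ => hh τ / qq τ) (toC (shS hhS)) := by
    rw [toC_shS]
    refine hasQ_hh.shift ?_
    have := P6_gS0
    rw [toC, ← PowerSeries.coeff_zero_eq_constantCoeff_apply, PowerSeries.coeff_map,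
      PowerSeries.coeff_zero_eq_constantCoeff_apply, this, map_zero]
  exact h.ivS P6_G0

private theorem P6_thol : Hol D3.t := D3_ok.t_hol

private theorem P6_Dt {τ : ℂ} (hτ : 0 < τ.im) :
    DD (fun τ => qq τ * D3.t τ) τ = qq τ * D3.t τ + qq τ * DD D3.t τ := by
  have hd : DifferentiableAt ℂ D3.t τ :=
    (P6_thol τ hτ).differentiableAt (isOpen_uhp.mem_nhds hτ)
  have h := (hasDerivAt_qq τ).mul hd.hasDerivAt
  have h2 : deriv (fun τ => qq τ * D3.t τ) τ =
      2 * (Real.pi : ℂ) * I * qq τ * D3.t τ + qq τ * deriv D3.t τ := h.deriv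
  have hpi : (2 * (Real.pi : ℂ) * I) ≠ 0 := by
    simp [Real.pi_ne_zero, I_ne_zero]
  rw [DD, DD, h2]
  field_simp

private theorem P6_qDt : HasQ (fun τ => qq τ * DD D3.t τ) (toC (dS D3.tS - D3.tS)) := by
  have ht := D3_ok.t_q
  have h := ht.DD.sub ht
  rw [toC_sub, toC_dS]
  refine h.congr 0 fun τ hτ => ?_
  rw [P6_Dt hτ]
  ring

private theorem P6_J {e : ℤ} (he : 0 < e) {W : Mat} (hW : ALM 3 e 1 W) {τ : ℂ} (hτ : 0 < τ.im) :
    jm W τ ^ 2 / (e : ℂ) ≠ 0 := by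
  have h1 : jm W τ ≠ 0 := jm_ne (by rw [hW.hdet]; omega) hτ
  have h2 : (e : ℂ) ≠ 0 := by exact_mod_cast he.ne'
  exact div_ne_zero (pow_ne_zero 2 h1) h2

private theorem P6_tmod : ModN 3 (fun _ => 1) 0 D3.t := D3_ok.t_mod

private theorem P6_chi (e : ℤ) : ((chi3 e : ℤ) : ℂ) ^ 2 = 1 := by
  unfold chi3
  split_ifs <;> simp

private theorem P6_chi0 (e : ℤ) : ((chi3 e : ℤ) : ℂ) ≠ 0 := by
  intro h
  have := P6_chi e
  rw [h] at this
  norm_num at this

private theorem P6_hhm {e : ℤ} (he0 : 0 < e) (he : e ∣ 3) {W : Mat} (hW : ALM 3 e 1 W) {τ : ℂ}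
    (hτ : 0 < τ.im) : hh (act W τ) = (chi3 e : ℂ) ^ 3 * (jm W τ ^ 2 / (e : ℂ)) ^ 3 * hh τ := by
  have a2 := hh_mod e he0 he W hW τ hτ
  rw [a2]
  have : ((jm W τ ^ 2 / (e : ℂ)) ^ (3 : ℤ)) = (jm W τ ^ 2 / (e : ℂ)) ^ 3 := by norm_cast
  rw [this]
  push_cast
  ring

private theorem P6_zzm {e : ℤ} (he0 : 0 < e) (he : e ∣ 3) {W : Mat} (hW : ALM 3 e 1 W) {τ : ℂ}
    (hτ : 0 < τ.im) : zz (act W τ) = (chi3 e : ℂ) * (jm W τ ^ 2 / (e : ℂ)) * zz τ := by
  have a2 := zz_mod e he0 he W hW τ hτ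
  rwa [zpow_one] at a2

private theorem P6_F {τ : ℂ} (hτ : 0 < τ.im) :
    DD D3.t τ ^ 2 * (zz τ / hh τ) - D3.t τ ^ 2 * (D3.t τ - 108) = 0 := by
  set F : ℂ → ℂ := fun τ => DD D3.t τ ^ 2 * (zz τ / hh τ) - D3.t τ ^ 2 * (D3.t τ - 108) with hF
  have hol : Hol F := by
    have h1 : DifferentiableOn ℂ (DD D3.t) {τ | 0 < τ.im} := P6_thol.DD
    have h2 : DifferentiableOn ℂ hh {τ | 0 < τ.im} := hh_hol
    have h3 : DifferentiableOn ℂ D3.t {τ | 0 < τ.im} := P6_thol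
    have h4 : DifferentiableOn ℂ zz {τ | 0 < τ.im} := zz_hol
    exact ((h1.pow 2).mul (h4.div h2 fun τ hτ => hh_ne hτ)).sub
      ((h3.pow 2).mul (h3.sub_const 108))
  have hmod : ModN ((3 : ℕ) : ℤ) (fun _ => 1) 0 F := by
    intro e he0 he W hW τ hτ
    have hJ := P6_J he0 hW hτ
    have a1 := DD_mod P6_tmod P6_thol e he0 he W hW τ hτ
    have a2 := P6_hhm he0 he hW hτ
    have a3 := P6_tmod e he0 he W hW τ hτ
    have a4 := P6_zzm he0 he hW hτ
    simp only [Int.cast_one, one_mul, zpow_one, zpow_zero] at a1 a3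
    have hg := hh_ne hτ
    have hc := P6_chi e
    have hc0 := P6_chi0 e
    simp only [hF]
    rw [a1, a2, a3, a4]
    simp only [Int.cast_one, zpow_zero, one_mul]
    congr 1
    set J := jm W τ ^ 2 / (e : ℂ)
    field_simp
    rw [hc]
    ring
  have hq : HasQ (fun τ => qq τ ^ 3 * F τ) (toC P6_H) := by
    have ht := D3_ok.t_q
    have h := ((P6_qDt.pow 2).mul (hasQ_zz.mul P6_gq)).sub
      ((ht.pow 2).mul (ht.sub (hasQ_qq.const_mul 108)))
    refine (h.congr 0 fun τ hτ => ?_).of_eq ?_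
    · have hg := hh_ne hτ
      have hqn := qq_ne τ
      simp only [hF]
      field_simp
    · simp only [P6_H, toC_sub, toC_mul, toC_pow, toC_X, toC_C]
      norm_num
  obtain ⟨c, hc⟩ := rigid_mod 3 D3_ok.sqf F hol hmod (bdd_of_hasQ 3 hq (by
    have : PowerSeries.X ^ 3 ∣ P6_H := (pow_dvd_pow _ (by norm_num)).trans P6_Hdvd
    rw [← toC_X, ← toC_pow]
    exact map_dvd (PowerSeries.map (Int.castRingHom ℂ)) this))
  have hc0 := eq_zero_of_hasQ 3 hq (by
    rw [← toC_X, ← toC_pow]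
    exact map_dvd (PowerSeries.map (Int.castRingHom ℂ)) P6_Hdvd) c hc
  have := hc τ hτ
  rw [hc0] at this
  exact this

private theorem P6_zero {H : PowerSeries ℤ} (hq : HasQ (fun _ => 0) (toC H)) : H = 0 := by
  have h0 : HasQ (fun _ => (0 : ℂ)) (toC 0) := by
    have := hasQ_const 0
    rw [map_zero] at this
    have e : toC 0 = 0 := by simp [toC]
    rw [e]
    exact this
  exact toC_injective (hq.unique h0)

private theorem P6_H0 : P6_H = 0 := by
  have ht := D3_ok.t_q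
  have h := ((P6_qDt.pow 2).mul (hasQ_zz.mul P6_gq)).sub
      ((ht.pow 2).mul (ht.sub (hasQ_qq.const_mul 108)))
  refine P6_zero ?_
  refine (h.congr 0 fun τ hτ => ?_).of_eq ?_
  · have hg := hh_ne hτ
    have hqn := qq_ne τ
    have e := P6_F hτ
    have e2 : (qq τ * DD D3.t τ) ^ 2 * (zz τ * (hh τ / qq τ)⁻¹) - (qq τ * D3.t τ) ^ 2 *
        (qq τ * D3.t τ - 108 * qq τ) =
        qq τ ^ 3 * (DD D3.t τ ^ 2 * (zz τ / hh τ) - D3.t τ ^ 2 * (D3.t τ - 108)) := by
      field_simp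
    rw [e2, e, mul_zero]
  · simp only [P6_H, toC_sub, toC_mul, toC_pow, toC_X, toC_C]
    norm_num

private theorem P6_RCq : HasQ (fun τ => 2 * zz τ * DD (DD zz) τ - 3 * DD zz τ ^ 2) (toC P6_R) := by
  have h1 := ((hasQ_zz.mul hasQ_zz.DD.DD).const_mul 2).sub ((hasQ_zz.DD.pow 2).const_mul 3)
  refine (h1.congr 0 fun τ _ => by ring).of_eq ?_
  simp only [P6_R, toC_sub, toC_mul, toC_pow, toC_C, toC_dS]
  norm_num

private theorem P6_qF2 : HasQ (fun τ => qq τ ^ 1 *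
    ((2 * zz τ * DD (DD zz) τ - 3 * DD zz τ ^ 2) * (zz τ ^ 2 / hh τ ^ 2) - 24 * D3.t τ))
    (toC P6_H2) := by
  have ht := D3_ok.t_q
  have hs : HasQ (fun τ => (2 * zz τ * DD (DD zz) τ - 3 * DD zz τ ^ 2) / qq τ)
      (toC (shS P6_R)) := by
    rw [toC_shS]
    refine P6_RCq.shift ?_
    rw [toC, ← PowerSeries.coeff_zero_eq_constantCoeff_apply, PowerSeries.coeff_map,
      PowerSeries.coeff_zero_eq_constantCoeff_apply, P6_R0, map_zero]
  have h := (hs.mul ((hasQ_zz.pow 2).mul (P6_gq.pow 2))).sub (ht.const_mul 24)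
  refine (h.congr 0 fun τ hτ => ?_).of_eq ?_
  · have hg := hh_ne hτ
    have hqn := qq_ne τ
    field_simp
  · simp only [P6_H2, toC_sub, toC_mul, toC_pow, toC_C]
    norm_num

private theorem P6_F2 {τ : ℂ} (hτ : 0 < τ.im) :
    (2 * zz τ * DD (DD zz) τ - 3 * DD zz τ ^ 2) * (zz τ ^ 2 / hh τ ^ 2) - 24 * D3.t τ = 0 := by
  set F : ℂ → ℂ := fun τ =>
    (2 * zz τ * DD (DD zz) τ - 3 * DD zz τ ^ 2) * (zz τ ^ 2 / hh τ ^ 2) - 24 * D3.t τ with hF
  have hol : Hol F := by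
    have h0 : DifferentiableOn ℂ zz {τ | 0 < τ.im} := zz_hol
    have h1 : DifferentiableOn ℂ (DD zz) {τ | 0 < τ.im} := zz_hol.DD
    have h2 : DifferentiableOn ℂ (DD (DD zz)) {τ | 0 < τ.im} := zz_hol.DD.DD
    have h3 : DifferentiableOn ℂ hh {τ | 0 < τ.im} := hh_hol
    have h4 : DifferentiableOn ℂ D3.t {τ | 0 < τ.im} := P6_thol
    exact ((((h0.const_mul 2).mul h2).sub ((h1.pow 2).const_mul 3)).mul ((h0.pow 2).div (h3.pow 2)
      fun τ hτ => pow_ne_zero 2 (hh_ne hτ))).sub (h4.const_mul 24)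
  have hmod : ModN ((3 : ℕ) : ℤ) (fun _ => 1) 0 F := by
    intro e he0 he W hW τ hτ
    have hJ := P6_J he0 hW hτ
    have a1 := RC_mod zz_mod zz_hol e he0 he W hW τ hτ
    have a2 := P6_hhm he0 he hW hτ
    have a3 := P6_tmod e he0 he W hW τ hτ
    have a4 := P6_zzm he0 he hW hτ
    simp only [Int.cast_one, one_mul, zpow_zero] at a3
    have hc := P6_chi e
    have hc0 := P6_chi0 e
    have a1' : 2 * zz (act W τ) * DD (DD zz) (act W τ) - 3 * DD zz (act W τ) ^ 2 =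
        (jm W τ ^ 2 / (e : ℂ)) ^ 4 * (2 * zz τ * DD (DD zz) τ - 3 * DD zz τ ^ 2) := by
      refine a1.trans ?_
      have h5 : ((jm W τ ^ 2 / (e : ℂ)) ^ (4 : ℤ)) = (jm W τ ^ 2 / (e : ℂ)) ^ 4 := by norm_cast
      rw [h5]
      push_cast
      rw [hc]
      ring
    have hg := hh_ne hτ
    simp only [hF]
    rw [a1', a2, a3, a4]
    simp only [Int.cast_one, zpow_zero, one_mul]
    congr 1
    set J := jm W τ ^ 2 / (e : ℂ)
    have h6 : (chi3 e : ℂ) ^ 4 = 1 := by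
      calc (chi3 e : ℂ) ^ 4 = ((chi3 e : ℂ) ^ 2) ^ 2 := by ring
        _ = 1 := by rw [hc]; ring
    field_simp
    rw [h6]
    ring
  obtain ⟨c, hc⟩ := rigid_mod 3 D3_ok.sqf F hol hmod (bdd_of_hasQ 1 P6_qF2 (by
    have : PowerSeries.X ^ 1 ∣ P6_H2 := (pow_dvd_pow _ (by norm_num)).trans P6_H2dvd
    rw [← toC_X, ← toC_pow]
    exact map_dvd (PowerSeries.map (Int.castRingHom ℂ)) this))
  have hc0 := eq_zero_of_hasQ 1 P6_qF2 (by
    rw [← toC_X, ← toC_pow]
    exact map_dvd (PowerSeries.map (Int.castRingHom ℂ)) P6_H2dvd) c hc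
  have := hc τ hτ
  rw [hc0] at this
  exact this

private theorem P6_H20 : P6_H2 = 0 := by
  refine P6_zero ?_
  refine P6_qF2.congr 0 fun τ hτ => ?_
  rw [P6_F2 hτ, mul_zero]

private theorem P6_xA : D3.xS * D3.tS = PowerSeries.X := D3_ok.xS_mul_tS

private theorem P6_gx : hhS = D3.xS * zzS ^ 3 := D3_ok.gS_eq

private theorem P6_XG : PowerSeries.X * shS hhS = hhS := X_mul_shS hhS P6_gS0

private theorem P6_x0 : D3.xS ≠ 0 := by
  intro h
  have := D3_ok.xS1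
  rw [h] at this
  simp at this

private theorem P6_z0 : zzS ≠ 0 := by
  intro h
  have := P6_appZ 0 (by norm_num)
  rw [h] at this
  simp at this

private theorem P6_dX : dS (PowerSeries.X : PowerSeries ℤ) = PowerSeries.X := by
  ext n
  rw [dS, PowerSeries.coeff_mk, PowerSeries.coeff_X]
  split_ifs with h
  · rw [h]; simp
  · simp

theorem xS_ode1 : dS D3.xS ^ 2 = D3.xS ^ 2 * (1 - 108 * D3.xS) * zzS ^ 2 := by
  have hH := P6_H0
  rw [P6_H] at hH
  have hG := ivS_mul (shS hhS) P6_G0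
  have hd : dS D3.xS * D3.tS + D3.xS * dS D3.tS = PowerSeries.X := by
    rw [← dS_mul, P6_xA, P6_dX]
  have e108 : (PowerSeries.C (108 : ℤ)) = 108 := map_ofNat _ 108
  rw [e108] at hH
  have hxA := P6_xA
  have hXG : PowerSeries.X * shS hhS = D3.xS * zzS ^ 3 := by rw [P6_XG, ← P6_gx]
  have hX : (PowerSeries.X : PowerSeries ℤ) ≠ 0 := PowerSeries.X_ne_zero
  have hx0 := P6_x0
  have hz0 := P6_z0
  set x := D3.xS
  set A := D3.tS
  set G := shS hhS
  set iG := ivS G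
  set B := dS A
  set y := dS x
  set z := zzS
  set X : PowerSeries ℤ := PowerSeries.X
  have h1 : (B - A) ^ 2 * z = G * (A ^ 2 * (A - 108 * X)) := by
    linear_combination G * hH - (B - A) ^ 2 * z * hG
  have h2 : x * (B - A) = -(A * y) := by
    linear_combination hd - hxA
  have h3 : A ^ 2 * y ^ 2 * z = x ^ 2 * (G * (A ^ 2 * (A - 108 * X))) := by
    rw [← h1]
    linear_combination z * (-(x * (B - A)) + A * y) * h2
  have h4 : (X ^ 3 * x * z) * y ^ 2 = (X ^ 3 * x * z) * (x ^ 2 * (1 - 108 * x) * z ^ 2) := by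
    have h5 : x * (A - 108 * X) = X * (1 - 108 * x) := by linear_combination hxA
    calc (X ^ 3 * x * z) * y ^ 2 = X * x * ((x * A) ^ 2 * y ^ 2 * z) := by rw [hxA]; ring
      _ = X * x ^ 3 * (A ^ 2 * y ^ 2 * z) := by ring
      _ = X * x ^ 3 * (x ^ 2 * (G * (A ^ 2 * (A - 108 * X)))) := by rw [h3]
      _ = x ^ 2 * (x * A) ^ 2 * (X * G) * (x * (A - 108 * X)) := by ring
      _ = x ^ 2 * X ^ 2 * (x * z ^ 3) * (X * (1 - 108 * x)) := by rw [hxA, hXG, h5]
      _ = _ := by ring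
  exact mul_left_cancel₀ (mul_ne_zero (mul_ne_zero (pow_ne_zero 3 hX) hx0) hz0) h4

theorem xS_ode2 : 2 * zzS * dS (dS zzS) - 3 * dS zzS ^ 2 = 24 * D3.xS * zzS ^ 4 := by
  have hH := P6_H20
  rw [P6_H2] at hH
  have hG := ivS_mul (shS hhS) P6_G0
  have hR : PowerSeries.X * shS P6_R = P6_R := X_mul_shS _ P6_R0
  have e24 : (PowerSeries.C (24 : ℤ)) = 24 := map_ofNat _ 24
  have e2 : (PowerSeries.C (2 : ℤ)) = 2 := map_ofNat _ 2
  have e3 : (PowerSeries.C (3 : ℤ)) = 3 := map_ofNat _ 3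
  have hRR : P6_R = 2 * zzS * dS (dS zzS) - 3 * dS zzS ^ 2 := by
    rw [P6_R, e2, e3]; ring
  rw [e24] at hH
  have hxA := P6_xA
  have hXG : PowerSeries.X * shS hhS = D3.xS * zzS ^ 3 := by rw [P6_XG, ← P6_gx]
  have hX : (PowerSeries.X : PowerSeries ℤ) ≠ 0 := PowerSeries.X_ne_zero
  have hz0 := P6_z0
  rw [← hRR]
  set x := D3.xS
  set A := D3.tS
  set G := shS hhS
  set iG := ivS G
  set z := zzS
  set S := shS P6_R
  set X : PowerSeries ℤ := PowerSeries.X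
  have h1 : S * z ^ 2 = G ^ 2 * (24 * A) := by
    linear_combination G ^ 2 * hH - S * z ^ 2 * (G * iG + 1) * hG
  have h4 : (X * z ^ 2) * P6_R = (X * z ^ 2) * (24 * x * z ^ 4) := by
    calc (X * z ^ 2) * P6_R = X ^ 2 * (S * z ^ 2) := by rw [← hR]; ring
      _ = (X * G) ^ 2 * (24 * A) := by rw [h1]; ring
      _ = 24 * (x * A) * x * z ^ 6 := by rw [hXG]; ring
      _ = _ := by rw [hxA]; ring
  exact mul_left_cancel₀ (mul_ne_zero hX (pow_ne_zero 2 hz0)) h4

end Pool.Agent.LibZQ46
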