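import Pool.Agent.LibZQ46.Defs

/-!
ZQ46 P7. The recurrence and the differential equation of `vv`.

Plan (model: LibZP46/C1.lean (end), LibZP46/C3.lean). `vv_rec`: with
`(n+1) C(2n+2,n+1) = 2 (2n+1) C(2n,n)` (`Nat.succ_mul_centralBinom_succ`) and
`(n+1) (2n+1) (2n+2) C(3n+3,n+1) = (3n+1) (3n+2) (3n+3) C(3n,n)` (factorials:
`C(3n,n) n! (2n)! = (3n)!`, `Nat.choose_mul_factorial_mul_factorial`, `Nat.factorial_succ`; `3n - n = 2n`),
i.e. `2 (n+1) (2n+1) C(3n+3,n+1) = 3 (3n+1)(3n+2) C(3n,n)`. `vv_ode`: coefficient of `X ^ (m+1)`: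
`2 ((m+1)^3 v_(m+1) - 108 m^3 v_m) - 324 m^2 v_m - 108 m v_m = 24 v_m + 48 m v_m`, which is twice
`vv_rec`: `108 m^3 + 162 m^2 + 54 m + 12 + 24 m = 6 (2m+1)(3m+1)(3m+2)`; coefficient of
`X ^ 0`: `0 = 0`.
-/

namespace Pool.Agent.LibZQ46

open Polynomial Pool.Agent.LibZP46

/-- `1 - 108 X`. -/
noncomputable def Q3 : ℤ[X] := 1 - 108 * X

/-- `24 X`. -/
noncomputable def R3 : ℤ[X] := 24 * X

theorem Q3_coeff_zero : Q3.coeff 0 = 1 := by
  simp [Q3, Polynomial.coeff_X]

theorem R3_coeff_zero : R3.coeff 0 = 0 := by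
  simp [R3, Polynomial.coeff_X]

theorem vv_zero : vv 0 = 1 := by
  decide

theorem vv_one : vv 1 = 12 := by
  decide

private theorem p7_cb (n : ℕ) :
    (n + 1) * (2 * (n + 1)).choose (n + 1) = 2 * (2 * n + 1) * (2 * n).choose n :=
  Nat.succ_mul_centralBinom_succ n

private theorem p7_A (n : ℕ) : 2 * (n + 1) * (2 * n + 1) * (3 * (n + 1)).choose (n + 1) =
    3 * (3 * n + 1) * (3 * n + 2) * (3 * n).choose n := by
  have h1 : (3 * n).choose n * n.factorial * (2 * n).factorial = (3 * n).factorial := by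
    have h := Nat.choose_mul_factorial_mul_factorial (show n ≤ 3 * n by omega)
    rw [show 3 * n - n = 2 * n by omega] at h
    exact h
  have h2 : (3 * (n + 1)).choose (n + 1) * (n + 1).factorial * (2 * n + 1 + 1).factorial =
      (3 * n + 2 + 1).factorial := by
    have h := Nat.choose_mul_factorial_mul_factorial (show n + 1 ≤ 3 * (n + 1) by omega)
    rw [show 3 * (n + 1) - (n + 1) = 2 * n + 1 + 1 by omega] at h
    rw [h]
    rfl
  rw [Nat.factorial_succ n, Nat.factorial_succ (2 * n + 1), Nat.factorial_succ (2 * n),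
    Nat.factorial_succ (3 * n + 2), Nat.factorial_succ (3 * n + 1), Nat.factorial_succ (3 * n), ← h1] at h2
  have hpos : 0 < (n + 1) * n.factorial * (2 * n).factorial := by positivity
  apply Nat.eq_of_mul_eq_mul_left hpos
  linear_combination h2

theorem vv_rec (n : ℕ) : ((n : ℤ) + 1) ^ 3 * vv (n + 1) =
    6 * (2 * (n : ℤ) + 1) * (3 * n + 1) * (3 * n + 2) * vv n := by
  have h1 : ((n : ℤ) + 1) * ((2 * (n + 1)).choose (n + 1) : ℤ) =
      2 * (2 * (n : ℤ) + 1) * ((2 * n).choose n : ℤ) := by exact_mod_cast p7_cb n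
  have h2 : 2 * ((n : ℤ) + 1) * (2 * n + 1) * ((3 * (n + 1)).choose (n + 1) : ℤ) =
      3 * (3 * (n : ℤ) + 1) * (3 * n + 2) * ((3 * n).choose n : ℤ) := by exact_mod_cast p7_A n
  unfold vv
  push_cast
  have h3 : (((n : ℤ) + 1) * ((2 * (n + 1)).choose (n + 1) : ℤ)) ^ 2 =
      (2 * (2 * (n : ℤ) + 1) * ((2 * n).choose n : ℤ)) ^ 2 := by rw [h1]
  linear_combination ((n : ℤ) + 1) * ((3 * (n + 1)).choose (n + 1) : ℤ) * h3 +
    2 * (2 * (n : ℤ) + 1) * ((2 * n).choose n : ℤ) ^ 2 * h2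

private theorem dS_add (a b : PowerSeries ℤ) : dS (a + b) = dS a + dS b := by
  ext n
  simp only [dS, PowerSeries.coeff_mk, map_add]
  ring

private theorem dS_smul (c : ℤ) (a : PowerSeries ℤ) : dS (c • a) = c • dS a := by
  ext n
  simp only [dS, PowerSeries.coeff_mk, map_smul, smul_eq_mul]
  ring

private theorem dS_one : dS (1 : PowerSeries ℤ) = 0 := by
  ext n
  simp only [dS, PowerSeries.coeff_mk, PowerSeries.coeff_one, map_zero]
  split_ifs with h
  · simp [h]
  · simp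

private theorem dS_X : dS (PowerSeries.X : PowerSeries ℤ) = PowerSeries.X := by
  ext n
  simp only [dS, PowerSeries.coeff_mk, PowerSeries.coeff_X]
  split_ifs with h
  · simp [h]
  · simp

private theorem Q3_coe : (Q3 : PowerSeries ℤ) = 1 + (-108 : ℤ) • PowerSeries.X := by
  have h : Q3 = 1 + C (-108) * X := by
    rw [Q3]
    simp only [map_neg, map_ofNat]
    ring
  rw [h]
  simp only [Polynomial.coe_add, Polynomial.coe_mul, Polynomial.coe_C, Polynomial.coe_X,
    Polynomial.coe_one, zsmul_eq_mul]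
  simp only [eq_intCast]

private theorem R3_coe : (R3 : PowerSeries ℤ) = (24 : ℤ) • PowerSeries.X := by
  have h : R3 = C 24 * X := by
    rw [R3]
    simp only [map_ofNat]
  rw [h]
  simp only [Polynomial.coe_mul, Polynomial.coe_C, Polynomial.coe_X, zsmul_eq_mul]
  simp only [eq_intCast]

private theorem key (Y0 Y1 Y2 Y3 : PowerSeries ℤ)
    (h : (2 : ℤ) • Y3 + PowerSeries.X * ((-216 : ℤ) • Y3 + (-324 : ℤ) • Y2 + (-156 : ℤ) • Y1 +
      (-24 : ℤ) • Y0) = 0) :
    2 * (1 + (-108 : ℤ) • PowerSeries.X) * Y3 +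
        3 * (0 + (-108 : ℤ) • PowerSeries.X) * Y2 +
        (0 + (-108 : ℤ) • PowerSeries.X) * Y1 =
      ((24 : ℤ) • PowerSeries.X) * Y0 +
        2 * ((24 : ℤ) • PowerSeries.X) * Y1 := by
  simp only [zsmul_eq_mul] at h ⊢
  push_cast at h ⊢
  linear_combination h

private theorem dS_zero : dS (0 : PowerSeries ℤ) = 0 := by
  ext n
  simp [dS]

theorem vv_ode : 2 * (Q3 : PowerSeries ℤ) * dS (dS (dS (PowerSeries.mk fun n => (vv n : ℤ)))) +
        3 * dS (Q3 : PowerSeries ℤ) * dS (dS (PowerSeries.mk fun n => (vv n : ℤ))) +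
        dS (dS (Q3 : PowerSeries ℤ)) * dS (PowerSeries.mk fun n => (vv n : ℤ)) =
      dS (R3 : PowerSeries ℤ) * (PowerSeries.mk fun n => (vv n : ℤ)) +
        2 * (R3 : PowerSeries ℤ) * dS (PowerSeries.mk fun n => (vv n : ℤ)) := by
  rw [Q3_coe, R3_coe]
  simp only [dS_add, dS_smul, dS_one, dS_X, dS_zero]
  apply key
  ext n
  rcases n with _ | n
  · simp [dS]
  · rw [map_add, PowerSeries.coeff_succ_X_mul]
    simp only [map_add, map_smul, smul_eq_mul, dS, PowerSeries.coeff_mk, map_zero]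
    have h := vv_rec n
    push_cast
    linear_combination 2 * h

end Pool.Agent.LibZQ46
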