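import Pool.Agent.LibZQ46.Defs

/-!
ZQ46 P8. `vv` modulo `p` and `p ^ 2`.

Plan (model: LibZP46/C4.lean). `dvd_vv`: if `p ≤ 2 n`: `p ∣ C(2n,n)` (`Nat.Prime.dvd_choose`,
`n < p ≤ 2 n`, `2 n - n < p`); if `2 n < p ≤ 3 n`: `p ∣ C(3n,n)` (`n < p`, `3 n - n = 2 n < p`).
`vv_prime`: `C(2p,p) = ∑ C(p,k)^2 ≡ 2` modulo `p^2`; `C(3p,p) = ∑_k C(p,k) C(2p,p-k)`
(`Nat.add_choose_eq`, Vandermonde, `3 p = p + 2 p`): for `0 < k < p` both factors are divisible by `p`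
(`p ∣ C(2p, j)` for `0 < j < p`: `j C(2p,j) = 2 p C(2p-1,j-1)`), `k = p` gives `1`, `k = 0` gives
`C(2p,p) ≡ 2`; so `C(3p,p) ≡ 3` and `vv p ≡ 2^2 * 3 = 12` modulo `p^2`.
-/

namespace Pool.Agent.LibZQ46

private theorem dvd_choose_mul (p m j : ℕ) (hp : p.Prime) (hm : p ∣ m) (h0 : 0 < j) (hj : j < p) :
    p ∣ m.choose j := by
  obtain ⟨j', rfl⟩ : ∃ j', j = j' + 1 := ⟨j - 1, by omega⟩
  rcases Nat.eq_zero_or_pos m with rfl | hpos
  · rw [Nat.choose_eq_zero_of_lt (by omega)]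
    exact dvd_zero _
  · obtain ⟨m', rfl⟩ : ∃ m', m = m' + 1 := ⟨m - 1, by omega⟩
    have h := Nat.add_one_mul_choose_eq m' j'
    have h1 : p ∣ (m' + 1).choose (j' + 1) * (j' + 1) := h ▸ Dvd.dvd.mul_right hm _
    rcases (Nat.Prime.dvd_mul hp).1 h1 with h2 | h2
    · exact h2
    · exact absurd (Nat.le_of_dvd (by omega) h2) (by omega)

private theorem choose_add_mod (p m : ℕ) (hp : p.Prime) (hm : p ∣ m) :
    ((p : ℤ) ^ 2) ∣ ((p + m).choose p : ℤ) - (m.choose p : ℤ) - 1 := by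
  have h := Nat.add_choose_eq p m p
  rw [Finset.Nat.sum_antidiagonal_eq_sum_range_succ (fun i j => p.choose i * m.choose j)] at h
  have hp0 := hp.pos
  rw [Nat.succ_eq_add_one, Finset.sum_range_succ, Finset.range_eq_Ico, Finset.sum_eq_sum_Ico_succ_bot hp0] at h
  simp only [Nat.choose_zero_right, Nat.sub_zero, one_mul, Nat.choose_self, Nat.sub_self, mul_one, zero_add] at h
  have h1 : ((p : ℤ) ^ 2) ∣ ((∑ k ∈ Finset.Ico 1 p, p.choose k * m.choose (p - k) : ℕ) : ℤ) := by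
    push_cast
    apply Finset.dvd_sum
    intro k hk
    rw [Finset.mem_Ico] at hk
    rw [sq]
    apply mul_dvd_mul
    · exact_mod_cast hp.dvd_choose_self (by omega) hk.2
    · exact_mod_cast dvd_choose_mul p m (p - k) hp hm (by omega) (by omega)
  have h2 : ((p + m).choose p : ℤ) - (m.choose p : ℤ) - 1 =
      ((∑ k ∈ Finset.Ico 1 p, p.choose k * m.choose (p - k) : ℕ) : ℤ) := by
    rw [h]
    push_cast
    ring
  rw [h2]
  exact h1

theorem dvd_vv (p n : ℕ) (hp : p.Prime) (h1 : n < p) (h2 : p ≤ 3 * n) : p ∣ vv n := by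
  unfold vv
  by_cases h : p ≤ 2 * n
  · exact Dvd.dvd.mul_right (dvd_pow (hp.dvd_choose h1 (by omega) h) two_ne_zero) _
  · apply Dvd.dvd.mul_left
    by_cases h3 : 3 * n - n < p
    · exact hp.dvd_choose h1 h3 h2
    · exact absurd (by omega : p ≤ 2 * n) h

theorem vv_prime (p : ℕ) (hp : p.Prime) : ((p : ℤ) ^ 2) ∣ (vv p : ℤ) - 12 := by
  have h1 := choose_add_mod p p hp dvd_rfl
  have h2 := choose_add_mod p (2 * p) hp (Dvd.intro_left 2 rfl)
  rw [Nat.choose_self, show p + p = 2 * p by ring] at h1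
  rw [show p + 2 * p = 3 * p by ring] at h2
  obtain ⟨x, hx⟩ := h1
  obtain ⟨y, hy⟩ := h2
  have hx' : ((2 * p).choose p : ℤ) = 2 + (p : ℤ) ^ 2 * x := by
    push_cast at hx
    linarith
  have hy' : ((3 * p).choose p : ℤ) = 3 + (p : ℤ) ^ 2 * (x + y) := by
    rw [hx'] at hy
    linarith
  have e : (vv p : ℤ) = ((2 * p).choose p : ℤ) ^ 2 * ((3 * p).choose p : ℤ) := by
    unfold vv
    push_cast
    rfl
  rw [e, hx', hy']
  refine ⟨4 * (x + y) + 12 * x + 4 * (p : ℤ) ^ 2 * x * (x + y) + 3 * (p : ℤ) ^ 2 * x ^ 2 +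
    (p : ℤ) ^ 4 * x ^ 2 * (x + y), by ring⟩

end Pool.Agent.LibZQ46
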