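import Pool.Agent.LibZP46.C2
import Pool.Agent.LibZP46.E2
import Pool.Agent.LibZQ46.P6
import Pool.Agent.LibZQ46.P7
import Pool.Agent.LibZQ46.P8

/-!
ZQ46 P9. `zz = ∑ vv n x ^ n`, and the sequence `vv` has the properties `SeqOK`.

Plan (model: LibZP46/B7.lean). `series_of_ode Q3 R3` with `xS_ode1`, `xS_ode2`, `vv_ode`, `D3_ok`.
`seqOK_vv`: `B = (p - 1) / 3` (`dvd_vv`: `B < n` gives `p ≤ 3 n`); `cd 3 k = (k + 2) / 3`;
`p % 3 ≠ 0` (`p` prime, `5 ≤ p`); `omega`.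
-/

namespace Pool.Agent.LibZQ46

open Pool.Agent.LibZP46

open Polynomial in
private theorem P9_Q (x : PowerSeries ℤ) : aeval x Q3 = 1 - 108 * x := by
  have h1 : aeval x (108 : ℤ[X]) = 108 := map_ofNat (aeval x) 108
  simp only [Q3, map_sub, map_mul, map_one, aeval_X, h1]

open Polynomial in
private theorem P9_R (x : PowerSeries ℤ) : aeval x R3 = 24 * x := by
  have h1 : aeval x (24 : ℤ[X]) = 24 := map_ofNat (aeval x) 24
  simp only [R3, map_mul, aeval_X, h1]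

theorem vv_series (m : ℕ) : PowerSeries.X ^ (m + 1) ∣
    D3.zS - ∑ n ∈ Finset.range (m + 1), PowerSeries.C ((vv n : ℕ) : ℤ) * D3.xS ^ n := by
  refine series_of_ode Q3 R3 Q3_coeff_zero R3_coeff_zero D3.zS D3.xS D3_ok.z0 D3_ok.xS0 D3_ok.xS1
    ?_ ?_ (fun n => (vv n : ℤ)) ?_ vv_ode m
  · rw [P9_Q]
    exact xS_ode1
  · rw [P9_R]
    exact xS_ode2
  · rw [vv_zero]
    rfl

theorem seqOK_vv (p : ℕ) (hp : p.Prime) (h5 : 5 ≤ p) : SeqOK D3 (fun n => (vv n : ℤ)) p := by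
  have h3 : p % 3 ≠ 0 := by
    intro h
    have h1 : 3 ∣ p := Nat.dvd_of_mod_eq_zero h
    have h2 := (Nat.prime_dvd_prime_iff_eq Nat.prime_three hp).1 h1
    omega
  refine ⟨vv_series, ⟨(p - 1) / 3, fun n h1 h2 => ?_, ?_⟩, ?_, ?_, ?_⟩
  · exact_mod_cast dvd_vv p n hp h2 (by omega)
  · change (p + 1 + 3 - 1) / 3 + (p - 1) / 3 ≤ p
    omega
  · rw [vv_one]
    exact vv_prime p hp
  · change (p + 3 - 1) / 3 = (p + 1 + 3 - 1) / 3
    omega
  · change (p + 3 - 1) / 3 < p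
    omega

end Pool.Agent.LibZQ46
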