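import Pool.Agent.LibZP46.F5
import Pool.Agent.LibZQ46.P9
import Pool.Agent.LibZQ46.P14

/-!
ZQ46 P15. The congruences at the CM point, for the numbers `US`.

Plan (model: LibZP46/H1.lean). `τ₀ = tauC`, `3 τ₀^2 + 3 τ₀ + 11 = 0`. `split3`:
`M = (a, -11 y; 3 y, a + 3 y)`, `M' = (a + 3 y, 11 y; -3 y, a)` are in `ALM 3 e p`
(`hdet`: determinant `a^2 + 3 a y + 33 y^2 = e p`, `e ∣ a`, `e ∣ a + 3 y` since `e ∣ 3`) and fix
`τ₀`. `j = jm M τ₀ = 3 y τ₀ + a + 3 y`, `j' = jm M' τ₀ = a - 3 y τ₀`, `j j' = e p`,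
`j + j' = 2 a + 3 y`. With `s₀ = chi3 e = ± 1`: `s₀ e p^2 / j^2 = s₀ j'^2 / e`,
`s₀ e p^2 / j'^2 = s₀ j^2 / e` (so the product is `p ^ 2`), and the sum is
`s₀ ((2a+3y)^2 - 2 e p) / e = s` (`hs`). The difference is `s₀ (j'^2 - j^2) / e =
- s₀ (2a+3y) * 3 y (2 τ₀ + 1) / e ≠ 0` (`(2 τ₀ + 1).im ≠ 0`). Then `split_main D3_ok p` with
`seqOK_vv`, `tval`, `m = -110592` (`¬ p ∣ 110592 = 2^12 * 3^3` for `p ≥ 5`), `e = e'`.
`inert3`: `inert_main D3_ok p` with `b = 11`, `e = 3`, `C = (0, -11; 3, 3)` in `ALM 3 3 11` (determinant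
`33`, trace `3`), which fixes `τ₀` (`jm C τ₀ = 3 τ₀ + 3`, `-11 = τ₀ (3 τ₀ + 3)`).
-/

namespace Pool.Agent.LibZQ46

open Complex Pool.Agent.LibZP46

private theorem P15_chi_sq (e : ℤ) : (chi3 e : ℂ) ^ 2 = 1 := by
  unfold chi3
  split_ifs <;> norm_num

private theorem P15_three (p : ℕ) (h5 : 5 ≤ p) : ¬ (p : ℤ) ∣ (D3.N : ℤ) := by
  intro h
  have h0 : (p : ℤ) ∣ 3 := h
  have h1 : p ∣ 3 := by exact_mod_cast h0
  have := Nat.le_of_dvd (by norm_num) h1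
  omega

private theorem P15_m (p : ℕ) (hp : p.Prime) (h5 : 5 ≤ p) : ¬ (p : ℤ) ∣ (-110592 : ℤ) := by
  intro h
  have h0 : (p : ℤ) ∣ 110592 := (dvd_neg (a := (p : ℤ)) (b := 110592)).1 h
  have h1 : p ∣ 110592 := by exact_mod_cast h0
  have h2 : p ∣ 2 ^ 12 * 3 ^ 3 := by norm_num; exact h1
  rcases (Nat.Prime.dvd_mul hp).1 h2 with h3 | h3
  · have h4 := hp.dvd_of_dvd_pow h3
    have := Nat.le_of_dvd (by norm_num) h4
    omega
  · have h4 := hp.dvd_of_dvd_pow h3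
    have := Nat.le_of_dvd (by norm_num) h4
    omega

private theorem P15_act (M : Mat) (τ : ℂ) (hj : jm M τ ≠ 0)
    (h : (M 0 0 : ℂ) * τ + (M 0 1 : ℂ) = τ * jm M τ) : act M τ = τ := by
  unfold act
  rw [h, mul_div_assoc, div_self hj, mul_one]

theorem split3 (p : ℕ) (hp : p.Prime) (h5 : 5 ≤ p) (e : ℤ) (he : 0 < e) (he3 : e ∣ 3) (a y s : ℤ)
    (hea : e ∣ a) (hdet : a ^ 2 + 3 * a * y + 33 * y ^ 2 = e * p) (hy : y ≠ 0)
    (htr : 2 * a + 3 * y ≠ 0) (hs : e * s = chi3 e * ((2 * a + 3 * y) ^ 2 - 2 * (e * p))) :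
    (p : ℤ) ^ 2 ∣ US (fun n => (vv n : ℤ)) p (-110592) - s * (-110592) ^ (p - 1) := by
  set τ₀ := tauC with hτ₀
  have hτ : 0 < τ₀.im := tauC_im_pos
  have hsq : 3 * τ₀ ^ 2 + 3 * τ₀ + 11 = 0 := tauC_sq
  have heN : e ∣ ((D3.N : ℕ) : ℤ) := he3
  have heC : (e : ℂ) ≠ 0 := by exact_mod_cast he.ne'
  have hp0 : (p : ℂ) ≠ 0 := by exact_mod_cast hp.ne_zero
  have hd : (a : ℂ) ^ 2 + 3 * a * y + 33 * y ^ 2 = e * p := by exact_mod_cast hdet
  have hea3 : e ∣ a + 3 * y := dvd_add hea (he3.mul_right y)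
  let M : Mat := !![a, -(11 * y); 3 * y, a + 3 * y]
  let M' : Mat := !![a + 3 * y, 11 * y; -(3 * y), a]
  have hM : ALM D3.N e p M := by
    refine ⟨hea, ⟨y, rfl⟩, hea3, ?_⟩
    rw [Matrix.det_fin_two_of]
    linear_combination hdet
  have hM' : ALM D3.N e p M' := by
    refine ⟨hea3, ⟨-y, ?_⟩, hea, ?_⟩
    · change -(3 * y) = 3 * -y
      ring
    · rw [Matrix.det_fin_two_of]
      linear_combination hdet
  have hj : jm M τ₀ = 3 * y * τ₀ + (a + 3 * y) := by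
    simp [jm, M]
  have hj' : jm M' τ₀ = -(3 * y) * τ₀ + a := by
    simp [jm, M']
  have hprod : jm M τ₀ * jm M' τ₀ = e * p := by
    rw [hj, hj']
    linear_combination hd - 3 * (y : ℂ) ^ 2 * hsq
  have hep : (e : ℂ) * p ≠ 0 := mul_ne_zero heC hp0
  have hjne : jm M τ₀ ≠ 0 := fun h => hep (by rw [← hprod, h, zero_mul])
  have hj'ne : jm M' τ₀ ≠ 0 := fun h => hep (by rw [← hprod, h, mul_zero])
  have hfix : act M τ₀ = τ₀ := by
    refine P15_act M τ₀ hjne ?_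
    rw [hj]
    simp [M]
    linear_combination -(y : ℂ) * hsq
  have hfix' : act M' τ₀ = τ₀ := by
    refine P15_act M' τ₀ hj'ne ?_
    rw [hj']
    simp [M']
    linear_combination (y : ℂ) * hsq
  have hχ := P15_chi_sq e
  have hsum : jm M τ₀ + jm M' τ₀ = 2 * a + 3 * y := by
    rw [hj, hj']
    ring
  have hsC : (e : ℂ) * s = chi3 e * ((2 * a + 3 * y) ^ 2 - 2 * (e * p)) := by exact_mod_cast hs
  have v1 : (D3.χ e : ℂ) * e * (p : ℂ) ^ 2 / jm M τ₀ ^ 2 =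
      (chi3 e : ℂ) * jm M' τ₀ ^ 2 / e := by
    change (chi3 e : ℂ) * e * (p : ℂ) ^ 2 / jm M τ₀ ^ 2 = _
    rw [div_eq_div_iff (pow_ne_zero 2 hjne) heC]
    linear_combination -(chi3 e : ℂ) * (jm M τ₀ * jm M' τ₀ + e * p) * hprod
  have v2 : (D3.χ e : ℂ) * e * (p : ℂ) ^ 2 / jm M' τ₀ ^ 2 =
      (chi3 e : ℂ) * jm M τ₀ ^ 2 / e := by
    change (chi3 e : ℂ) * e * (p : ℂ) ^ 2 / jm M' τ₀ ^ 2 = _
    rw [div_eq_div_iff (pow_ne_zero 2 hj'ne) heC]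
    linear_combination -(chi3 e : ℂ) * (jm M τ₀ * jm M' τ₀ + e * p) * hprod
  have htrC : (2 * (a : ℂ) + 3 * y) ≠ 0 := by exact_mod_cast htr
  have hyC : (y : ℂ) ≠ 0 := by exact_mod_cast hy
  refine split_main D3_ok p hp (by omega) (P15_three p h5) (fun n => (vv n : ℤ))
    (seqOK_vv p hp h5) (-110592) (P15_m p hp h5) hτ tval he heN he heN hM hM' hfix hfix' s ?_ ?_ ?_
  · rw [v1, v2, ← add_div, div_eq_iff heC, mul_comm (s : ℂ), hsC, ← hprod, ← hsum]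
    ring
  · rw [v1, v2]
    field_simp
    linear_combination (jm M τ₀ * jm M' τ₀) ^ 2 * hχ + (jm M τ₀ * jm M' τ₀ + e * p) * hprod
  · rw [v1, v2]
    intro h
    have h1 : (chi3 e : ℂ) * (jm M' τ₀ ^ 2 - jm M τ₀ ^ 2) = 0 := by
      have h2 := (div_left_inj' heC).1 h
      linear_combination h2
    have h3 : (chi3 e : ℂ) ≠ 0 := by
      intro h0
      rw [h0] at hχ
      norm_num at hχ
    have h4 : jm M' τ₀ ^ 2 - jm M τ₀ ^ 2 = -(3 * y * (2 * a + 3 * y)) * (2 * τ₀ + 1) := by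
      rw [hj, hj']; ring
    rcases mul_eq_zero.1 h1 with h5' | h5'
    · exact h3 h5'
    · rw [h4] at h5'
      have hτ0 : 2 * τ₀ + 1 ≠ 0 := by
        intro h0
        have h6 := congrArg Complex.im h0
        simp at h6
        rw [h6] at hτ
        exact lt_irrefl _ hτ
      exact mul_ne_zero (neg_ne_zero.2 (mul_ne_zero (mul_ne_zero (by norm_num) hyC) htrC)) hτ0 h5'

theorem inert3 (p : ℕ) (hp : p.Prime) (h5 : 5 ≤ p) (h11 : p ≠ 11)
    (hno : ∀ x : ℤ, ¬ (p : ℤ) ∣ x ^ 2 - 3 * x + 33) :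
    (p : ℤ) ^ 2 ∣ US (fun n => (vv n : ℤ)) p (-110592) := by
  have hτ : 0 < tauC.im := tauC_im_pos
  have hsq : 3 * tauC ^ 2 + 3 * tauC + 11 = 0 := tauC_sq
  let C : Mat := !![0, -11; 3, 3]
  have hC : ALM D3.N 3 (11 : ℕ) C := by
    refine ⟨⟨0, rfl⟩, ⟨1, rfl⟩, ⟨1, rfl⟩, ?_⟩
    rw [Matrix.det_fin_two_of]
    norm_num
  have hj : jm C tauC = 3 * tauC + 3 := by
    simp [jm, C]
  have hj0 : jm C tauC ≠ 0 := by
    rw [hj]
    intro h0
    have h6 := congrArg Complex.im h0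
    simp at h6
    rw [h6] at hτ
    exact lt_irrefl _ hτ
  have hfix : act C tauC = tauC := by
    refine P15_act C _ hj0 ?_
    rw [hj]
    simp [C]
    linear_combination -hsq
  have htr : C.trace = 3 := by
    rw [Matrix.trace_fin_two_of]; norm_num
  have hdt : C.det = 33 := by
    rw [Matrix.det_fin_two_of]; norm_num
  refine inert_main D3_ok p hp (by omega) (P15_three p h5) (fun n => (vv n : ℤ))
    (seqOK_vv p hp h5) (-110592) (P15_m p hp h5) hτ tval 11 (by norm_num) (by norm_num) (fun h => h11 h.symm)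
    (P15_three 11 (by norm_num)) (by norm_num) (by exact ⟨1, rfl⟩) hC hfix ?_
  intro x hx
  rw [htr, hdt] at hx
  exact hno x hx

end Pool.Agent.LibZQ46
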