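import Pool.Agent.LibZQ46.P15

/-!
ZQ46 P16. The theorem (part (a) of MP_225c33).

Plan. `cong_of_dvd` (model: `congSq_of_dvd` in LibZP46/H2.lean): `SS p * m ^ (p - 1) = US vv p m` with
`m = -110592 = (-48) ^ 3` (`(-48)^(3 j) = m^j`), and the denominator divides `m ^ (p - 1)`, prime to
`p` (`p > 3`; the prime factors of `110592` are 2 and 3).
`main_one`: `4 p = x^2 + 123 y^2`: `x ≡ y` modulo 2 (`x^2 + 123 y^2 ≡ x^2 - y^2` modulo 4), so
`x - 3 y = 2 a`; `split3` with `e = 1`, `s = x^2 - 2 p`: `2 a + 3 y = x`,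
`4 (a^2 + 3 a y + 33 y^2) = x^2 + 123 y^2`. `y ≠ 0`: else `4 p = x^2`, `x = 2 x'`, `p = x'^2` is not
prime. `x ≠ 0`: else `4 p = 123 y^2`, `p ∣ 123 y^2`, `3 ∣ 4 p` gives `3 ∣ p`, `p = 3`, but `p > 3`.
`main_three`: `4 p = 3 x^2 + 41 y^2`, `p ≠ 41`: `x ≡ y` modulo 2, `x - y = 2 X`, `a = 3 X`, `e = 3`:
`2 a + 3 y = 3 x`, `a^2 + 3 a y + 33 y^2 = 9 X^2 + 9 X y + 33 y^2`, `4 *` this `= 9 x^2 + 123 y^2 =
3 * (4 p)`; `s = 2 p - 3 x^2` (`chi3 3 = -1`). `y ≠ 0`: else `4 p = 3 x^2`, `3 ∣ p`. `x ≠ 0`: else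
`4 p = 41 y^2`, `41 ∣ p`, `p = 41`.
`main_inert`: `jacobiSym p 123 = -1`: `p ≠ 11` (`jacobiSym 11 123 = 1`, `by norm_num`/`decide`). If
`p ∣ x^2 - 3 x + 33` then `p ∣ (2 x - 3)^2 + 123`, so `-123` is a square modulo `p`; but
`legendreSym p (-123) = jacobiSym (-123) p = jacobiSym p 123` : e.g. `-123 = (-1) * 123`,
`jacobiSym.quadratic_reciprocity` (`jacobiSym 123 p = (-1)^((123/2)*(p/2)) jacobiSym p 123`,
`123 / 2 = 61` odd) and `jacobiSym.at_neg_one` (`χ₄ p = (-1)^(p/2)`, `ZMod.χ₄_eq_neg_one_pow`); `p` is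
odd. Then `jacobiSym = -1` contradicts a square (`legendreSym.eq_neg_one_iff`,
`jacobiSym.legendreSym.to_jacobiSym`).
-/

namespace Pool.Agent.LibZQ46

open Pool.Agent.LibZP46

/-- The sum `S_p`. -/
def SS (p : ℕ) : ℚ :=
  ∑ j ∈ Finset.range p, ((2 * j).choose j : ℚ) ^ 2 * ((3 * j).choose j : ℚ) / (-48) ^ (3 * j)

/-- Congruence modulo `p ^ 2` of rational numbers, in the ring of the rational numbers with
denominator prime to `p`. -/
def CongSq (p : ℕ) (r s : ℚ) : Prop := ∃ c : ℚ, ¬ p ∣ c.den ∧ r - s = (p : ℚ) ^ 2 * c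

private theorem P16_not (p : ℕ) (hp : p.Prime) (h3 : 3 < p) : ¬ p ∣ 110592 := by
  intro h
  have h1 : p ∣ 2 ^ 12 * 3 ^ 3 := by norm_num; exact h
  rcases (Nat.Prime.dvd_mul hp).1 h1 with h2 | h2
  · have := Nat.le_of_dvd (by norm_num) (hp.dvd_of_dvd_pow h2)
    omega
  · have := Nat.le_of_dvd (by norm_num) (hp.dvd_of_dvd_pow h2)
    omega

theorem cong_of_dvd (p : ℕ) (hp : p.Prime) (h3 : 3 < p) (s : ℤ)
    (h : (p : ℤ) ^ 2 ∣ US (fun n => (vv n : ℤ)) p (-110592) - s * (-110592) ^ (p - 1)) :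
    CongSq p (SS p) s := by
  have hmp : (-110592 : ℚ) ^ (p - 1) ≠ 0 := pow_ne_zero _ (by norm_num)
  have hUS : SS p * (-110592 : ℚ) ^ (p - 1) =
      ((US (fun n => (vv n : ℤ)) p (-110592) : ℤ) : ℚ) := by
    unfold SS US vv
    push_cast
    rw [Finset.sum_mul]
    refine Finset.sum_congr rfl fun n hn => ?_
    have hn' : n ≤ p - 1 := by
      have := Finset.mem_range.1 hn
      omega
    have h1 : (-110592 : ℚ) ^ (p - 1) = (-110592 : ℚ) ^ n * (-110592 : ℚ) ^ (p - 1 - n) := by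
      rw [← pow_add]
      congr 1
      omega
    have h2 : (-110592 : ℚ) ^ n ≠ 0 := pow_ne_zero _ (by norm_num)
    have h4 : ((-48 : ℚ)) ^ (3 * n) = (-110592 : ℚ) ^ n := by
      rw [pow_mul]
      norm_num
    rw [h1, h4]
    field_simp
  obtain ⟨c, hc⟩ := h
  refine ⟨(c : ℚ) / (((-110592) ^ (p - 1) : ℤ) : ℚ), ?_, ?_⟩
  · intro hd
    have h1 : ((((c : ℚ) / (((-110592) ^ (p - 1) : ℤ) : ℚ)).den : ℕ) : ℤ) ∣ (-110592) ^ (p - 1) := by
      have h2 := Rat.den_dvd c ((-110592) ^ (p - 1) : ℤ)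
      rw [Rat.divInt_eq_div] at h2
      exact h2
    have h2 : (p : ℤ) ∣ (-110592) ^ (p - 1) := (Int.natCast_dvd_natCast.2 hd).trans h1
    have h4 : (p : ℤ) ∣ -110592 := (Nat.prime_iff_prime_int.1 hp).dvd_of_dvd_pow h2
    have h5 : (p : ℤ) ∣ (110592 : ℤ) := (dvd_neg (a := (p : ℤ)) (b := 110592)).1 h4
    exact P16_not p hp h3 (by exact_mod_cast h5)
  · have h3' : SS p * (-110592 : ℚ) ^ (p - 1) - (s : ℚ) * (-110592 : ℚ) ^ (p - 1) =
        (p : ℚ) ^ 2 * (c : ℚ) := by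
      rw [hUS]
      exact_mod_cast hc
    push_cast
    rw [mul_div_assoc', eq_div_iff hmp, ← h3']
    ring

private theorem P16_sq (p : ℕ) (hp : p.Prime) (x : ℤ) (h : 4 * (p : ℤ) = x ^ 2) : False := by
  have hpz : Prime (p : ℤ) := Nat.prime_iff_prime_int.1 hp
  have h1 : (2 : ℤ) ∣ x := Int.prime_two.dvd_of_dvd_pow (n := 2) ⟨2 * p, by rw [← h]; ring⟩
  obtain ⟨k, rfl⟩ := h1
  have h2 : (p : ℤ) = k * k := by nlinarith
  have h3 := hpz.irreducible.isUnit_or_isUnit h2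
  have h4 : IsUnit (p : ℤ) := by
    rcases h3 with h3 | h3 <;> (rw [h2]; exact h3.mul h3)
  exact hpz.not_isUnit h4

theorem main_one (p : ℕ) (hp : p.Prime) (h3 : 3 < p) (x y : ℤ)
    (h : 4 * (p : ℤ) = x ^ 2 + 123 * y ^ 2) : CongSq p (SS p) (x ^ 2 - 2 * p) := by
  have h5 : 5 ≤ p := by
    rcases Nat.lt_or_ge p 5 with h0 | h0
    · interval_cases p
      exact absurd hp (by norm_num)
    · exact h0
  obtain ⟨a, ha⟩ : ∃ a : ℤ, x - 3 * y = 2 * a := by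
    rcases Int.even_or_odd (x - 3 * y) with h0 | ⟨k, hk⟩
    · exact h0.two_dvd
    · exfalso
      have h1 : x = 2 * k + 1 + 3 * y := by linarith
      have h2 : (4 : ℤ) ∣ 1 := by
        have h6 : 4 * (p : ℤ) = (2 * k + 1 + 3 * y) ^ 2 + 123 * y ^ 2 := by rw [← h1]; exact h
        rcases Int.even_or_odd y with ⟨j, hj⟩ | ⟨j, hj⟩
        · subst hj
          exact ⟨p - (k ^ 2 + k + 3 * (2 * k + 1) * j + 9 * j ^ 2 + 123 * j ^ 2), by nlinarith⟩
        · subst hj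
          exact ⟨(k + 2 + 3 * j) ^ 2 + 123 * (j ^ 2 + j) + 31 - p, by linear_combination h6⟩
      omega
  have hx0 : x ≠ 0 := by
    rintro rfl
    have h1 : (3 : ℤ) ∣ 4 * (p : ℤ) := ⟨41 * y ^ 2, by rw [h]; ring⟩
    have h2 : (3 : ℤ) ∣ (p : ℤ) := by omega
    have h4 : 3 ∣ p := by exact_mod_cast h2
    have := (Nat.prime_dvd_prime_iff_eq Nat.prime_three hp).1 h4
    omega
  have hy0 : y ≠ 0 := by
    rintro rfl
    exact P16_sq p hp x (by rw [h]; ring)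
  have hxx : x = 2 * a + 3 * y := by linarith
  have key := split3 p hp h5 1 (by norm_num) (by norm_num) a y (x ^ 2 - 2 * p) (one_dvd _)
    (by rw [hxx] at h; linarith) hy0 (by rw [← hxx]; exact hx0) (by
      rw [← hxx]
      norm_num [chi3])
  have h1 := cong_of_dvd p hp h3 _ key
  push_cast at h1
  exact h1

theorem main_three (p : ℕ) (hp : p.Prime) (h3 : 3 < p) (h41 : p ≠ 41) (x y : ℤ)
    (h : 4 * (p : ℤ) = 3 * x ^ 2 + 41 * y ^ 2) : CongSq p (SS p) (2 * p - 3 * x ^ 2) := by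
  have h5 : 5 ≤ p := by
    rcases Nat.lt_or_ge p 5 with h0 | h0
    · interval_cases p
      exact absurd hp (by norm_num)
    · exact h0
  obtain ⟨a, ha⟩ : ∃ a : ℤ, x - y = 2 * a := by
    rcases Int.even_or_odd (x - y) with h0 | ⟨k, hk⟩
    · exact h0.two_dvd
    · exfalso
      have h1 : x = 2 * k + 1 + y := by linarith
      have h2 : (4 : ℤ) ∣ 1 := by
        have h6 : 4 * (p : ℤ) = 3 * (2 * k + 1 + y) ^ 2 + 41 * y ^ 2 := by rw [← h1]; exact h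
        rcases Int.even_or_odd y with ⟨j, hj⟩ | ⟨j, hj⟩
        · subst hj
          exact ⟨-(p : ℤ) + (3 * (k ^ 2 + k) + 3 * (2 * k + 1) * j + 3 * j ^ 2 + 41 * j ^ 2) + 1,
            by nlinarith⟩
        · subst hj
          exact ⟨(p : ℤ) - (3 * (k + j + 1) ^ 2 + 41 * (j ^ 2 + j)) - 10, by nlinarith⟩
      omega
  have hx0 : x ≠ 0 := by
    rintro rfl
    have h1 : (41 : ℤ) ∣ 4 * (p : ℤ) := ⟨y ^ 2, by rw [h]; ring⟩
    have h2 : (41 : ℤ) ∣ (p : ℤ) := by omega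
    have h4 : 41 ∣ p := by exact_mod_cast h2
    exact h41 ((Nat.prime_dvd_prime_iff_eq (by norm_num) hp).1 h4).symm
  have hy0 : y ≠ 0 := by
    rintro rfl
    have h1 : (3 : ℤ) ∣ 4 * (p : ℤ) := ⟨x ^ 2, by rw [h]; ring⟩
    have h2 : (3 : ℤ) ∣ (p : ℤ) := by omega
    have h4 : 3 ∣ p := by exact_mod_cast h2
    have := (Nat.prime_dvd_prime_iff_eq Nat.prime_three hp).1 h4
    omega
  have hxx : x = 2 * a + y := by linarith
  have hc : chi3 3 = -1 := by norm_num [chi3]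
  have key := split3 p hp h5 3 (by norm_num) (by norm_num) (3 * a) y (2 * p - 3 * x ^ 2)
    (Dvd.intro _ rfl) (by rw [hxx] at h; linarith) hy0
    (by intro h0; apply hx0; rw [hxx]; linarith) (by
      rw [hc, hxx]
      ring)
  have h1 := cong_of_dvd p hp h3 _ key
  push_cast at h1
  exact h1

private theorem P16_leg (p : ℕ) [Fact p.Prime] (h2 : p ≠ 2) (h : jacobiSym p 123 = -1) :
    legendreSym p (-123) = -1 := by
  have hodd : Odd p := (Fact.out : p.Prime).odd_of_ne_two h2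
  rw [jacobiSym.legendreSym.to_jacobiSym]
  have h1 : ((-123 : ℤ)) = -1 * ((123 : ℕ) : ℤ) := by norm_num
  rw [h1, jacobiSym.mul_left, jacobiSym.at_neg_one hodd,
    jacobiSym.quadratic_reciprocity (by decide) hodd, h, ZMod.χ₄_eq_neg_one_pow
      (Nat.odd_iff.1 hodd)]
  have h3 : (123 / 2 : ℕ) = 61 := by norm_num
  rw [h3, pow_mul, ← mul_assoc]
  have h4 : ((-1 : ℤ) ^ 61) = -1 := by norm_num
  rw [h4, ← mul_pow]
  norm_num

theorem main_inert (p : ℕ) (hp : p.Prime) (h3 : 3 < p) (h : jacobiSym p 123 = -1) :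
    CongSq p (SS p) 0 := by
  have h5 : 5 ≤ p := by
    rcases Nat.lt_or_ge p 5 with h0 | h0
    · interval_cases p
      exact absurd hp (by norm_num)
    · exact h0
  have : Fact p.Prime := ⟨hp⟩
  have h11 : p ≠ 11 := by
    rintro rfl
    revert h
    norm_num
  have hl := P16_leg p (by omega) h
  rw [legendreSym.eq_neg_one_iff] at hl
  have key := inert3 p hp h5 h11 (fun x hx => by
    apply hl
    refine ⟨((2 * x - 3 : ℤ) : ZMod p), ?_⟩
    have h2 : ((x ^ 2 - 3 * x + 33 : ℤ) : ZMod p) = 0 := (ZMod.intCast_zmod_eq_zero_iff_dvd _ p).2 hx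
    push_cast at h2 ⊢
    linear_combination -4 * h2)
  have h1 := cong_of_dvd p hp h3 0 (by simpa using key)
  push_cast at h1
  exact h1

end Pool.Agent.LibZQ46
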