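import Pool.Agent.LibZQ46.P1
import Pool.Agent.LibZQ46.P2

/-!
ZQ46 P3. The forms `KK` and `hh` of weight 6.

Plan. `KK_mod`: `act3_one`, `act3_three`, `E6_act`; with `j = jm W τ`: for `e = 1` both terms get
`j ^ 6`; for `e = 3`: `E6 (W τ) = j^6 E6 (3 τ)`, `27 E6 (3 W τ) = 27 (j / 3)^6 E6 τ = (j^6 / 27) E6 τ`,
so `KK (W τ) = -(j^2 / 3)^3 KK τ`; `chi3 3 ^ 3 = -1`; `zpow` with exponent `3 : ℤ` (`norm_cast`,
`zpow_ofNat`). `hh_mod`: `ModN.pow`, `ModN.const_mul`, `ModN.sub` (`zz ^ 3` has the signs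
`chi3 e ^ 3` and `r = 3 * 1`). `hasQ_hh`: the series of `KK` is `26 + ∑ (504 s5d 1 n -
27 * 504 s5d 3 n) q ^ n` (`hasSum_E6_mul`), and
`432 hhS = 26 zzS ^ 3 - (that series)`: coefficientwise after `26 zzS^3 = 26 + 26 * 36 AT +
26 * 432 AT ^ 2 + 26 * 1728 AT ^ 3` (`ring`): `432 LT n = 936 AT n - 504 s5d 1 n + 13608 s5d 3 n` for
`n > 0`, with `s5d d n = sgd d n + 6 w5d d n` (`6 ∣ d ^ 5 - d`: `Int.emod_emod_of_dvd`, `decide` on
`d % 6`, or `Int.ModEq`), and for `n = 0` all of `sgd`, `s5d`, `w5d` are `0`. It is convenient to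
prove first `HasQ (fun τ => 432 * hh τ) (toC (432 * hhS))` and multiply by `1 / 432`.
-/

namespace Pool.Agent.LibZQ46

open Complex Pool.Agent.LibZP46

private theorem six_dvd (k : ℤ) : (6 : ℤ) ∣ k ^ 5 - k := by
  apply Int.dvd_of_emod_eq_zero
  have h6 : k % 6 = 0 ∨ k % 6 = 1 ∨ k % 6 = 2 ∨ k % 6 = 3 ∨ k % 6 = 4 ∨ k % 6 = 5 := by omega
  rcases h6 with h | h | h | h | h | h <;> simp [pow_succ, Int.sub_emod, Int.mul_emod, h]

private theorem s5_eq (n : ℕ) : s5 n = sg n + 6 * w5 n := by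
  unfold s5 sg w5
  rw [Finset.mul_sum, ← Finset.sum_add_distrib]
  refine Finset.sum_congr rfl fun k _ => ?_
  rw [Int.mul_ediv_cancel' (six_dvd _)]
  ring

theorem s5d_eq (d n : ℕ) : s5d d n = sgd d n + 6 * w5d d n := by
  unfold s5d sgd w5d
  split_ifs
  · exact s5_eq _
  · simp

private theorem im3 {τ : ℂ} (hτ : 0 < τ.im) : 0 < (3 * τ).im := by
  have h : (3 * τ).im = 3 * τ.im := by simp
  rw [h]
  positivity

theorem KK_hol : Hol KK := by
  have h1 : DifferentiableOn ℂ E6 {τ | 0 < τ.im} := E6_hol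
  have h2 : DifferentiableOn ℂ (fun τ : ℂ => E6 (3 * τ)) {τ | 0 < τ.im} := by
    refine DifferentiableOn.comp (g := E6) (f := fun τ : ℂ => 3 * τ) h1 ?_ ?_
    · exact (differentiable_id.const_mul (3 : ℂ)).differentiableOn
    · intro τ hτ
      exact im3 hτ
  exact (h2.const_mul 27).sub h1

theorem KK_mod : ModN 3 (fun e => chi3 e ^ 3) 3 KK := by
  intro e he hd W hW τ hτ
  have hle : e ≤ 3 := Int.le_of_dvd (by norm_num) hd
  have h3 := im3 hτ
  interval_cases e
  · obtain ⟨hdet, γ, hγ, ha, hj, -⟩ := act3_one hW hτ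
    unfold KK
    rw [ha, E6_act hγ h3, hj, E6_act hdet hτ]
    have hc : chi3 1 = 1 := by decide
    simp only [hc]
    push_cast
    rw [show (3 : ℤ) = ((3 : ℕ) : ℤ) by norm_num, zpow_natCast]
    ring
  · norm_num at hd
  · obtain ⟨⟨γ, hγ, ha, hj, -⟩, γ', hγ', ha', hj', -⟩ := act3_three hW hτ
    unfold KK
    rw [ha', E6_act hγ' hτ, ha, E6_act hγ h3, hj, ← hj']
    have hc : chi3 3 = -1 := by decide
    simp only [hc]
    push_cast
    have e3 : ∀ x : ℂ, x ^ (3 : ℤ) = x ^ (3 : ℕ) := fun x => by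
      rw [show (3 : ℤ) = ((3 : ℕ) : ℤ) by norm_num, zpow_natCast]
    rw [e3]
    ring

theorem hh_hol : Hol hh := by
  have h1 : DifferentiableOn ℂ zz {τ | 0 < τ.im} := zz_hol
  have h2 : DifferentiableOn ℂ KK {τ | 0 < τ.im} := KK_hol
  exact (((h1.pow 3).const_mul 26).sub h2).div_const 432

theorem hh_mod : ModN 3 (fun e => chi3 e ^ 3) 3 hh := by
  have h0 := zz_mod.pow 3
  have h1 : (((3 : ℕ) : ℤ) * 1) = 3 := by norm_num
  rw [h1] at h0
  have h := ((h0.const_mul 26).sub KK_mod).const_mul (1 / 432)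
  refine h.congr fun τ _ => ?_
  unfold hh
  ring

/-- The q-series of `KK`. -/
private def KKS : PowerSeries ℤ :=
  PowerSeries.mk fun n => if n = 0 then 26 else 504 * s5d 1 n - 27 * 504 * s5d 3 n

private theorem hasQ_KK : HasQ KK (toC KKS) := by
  refine ⟨0, fun τ hτ => ?_⟩
  have h1 := (hasSum_E6_mul 3 (by norm_num) hτ).mul_left 27
  have h2 := hasSum_E6_mul 1 (by norm_num) hτ
  have h := h1.sub h2
  simp only [Nat.cast_one, one_mul, Nat.cast_ofNat] at h
  unfold KK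
  refine (funext (fun n => ?_) : (fun b : ℕ =>
      27 * ((if b = 0 then 1 else -504 * (s5d 3 b : ℂ)) * qq τ ^ b) -
        (if b = 0 then 1 else -504 * (s5d 1 b : ℂ)) * qq τ ^ b) =
      fun n => PowerSeries.coeff n (toC KKS) * qq τ ^ n) ▸ h
  unfold toC KKS
  rw [PowerSeries.coeff_map, PowerSeries.coeff_mk]
  by_cases hn : n = 0
  · subst hn
    simp
    norm_num
  · simp only [hn, if_false]
    simp only [eq_intCast]
    push_cast
    ring

private theorem sgd_zero (d : ℕ) : sgd d 0 = 0 := by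
  simp [sgd, sg]

private theorem w5d_zero (d : ℕ) : w5d d 0 = 0 := by
  simp [w5d, w5]

private theorem key_lin : (432 : PowerSeries ℤ) * LT = 26 + 936 * AT - KKS := by
  have e1 : (432 : PowerSeries ℤ) = PowerSeries.C 432 := by simp
  have e2 : (936 : PowerSeries ℤ) = PowerSeries.C 936 := by simp
  have e3 : (26 : PowerSeries ℤ) = PowerSeries.C 26 := by simp
  rw [e1, e2, e3]
  ext n
  rw [map_sub, map_add, PowerSeries.coeff_C_mul, PowerSeries.coeff_C_mul, PowerSeries.coeff_C]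
  unfold LT AT KKS
  rw [PowerSeries.coeff_mk, PowerSeries.coeff_mk, PowerSeries.coeff_mk]
  by_cases hn : n = 0
  · subst hn
    simp [sgd_zero, w5d_zero]
  · simp only [hn, if_false]
    rw [s5d_eq, s5d_eq]
    ring

private theorem key_all : (432 : PowerSeries ℤ) * hhS = 26 * zzS ^ 3 - KKS := by
  have h := key_lin
  unfold hhS zzS
  linear_combination h

theorem hasQ_hh : HasQ hh (toC hhS) := by
  have h := (((hasQ_zz.pow 3).const_mul 26).sub hasQ_KK).const_mul (1 / 432)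
  have h1 : PowerSeries.C (1 / 432 : ℂ) * (PowerSeries.C (26 : ℂ) * toC zzS ^ 3 - toC KKS) =
      toC hhS := by
    have e := congrArg toC key_all
    have e26 : (26 : PowerSeries ℤ) = PowerSeries.C 26 := by simp
    have e432 : (432 : PowerSeries ℤ) = PowerSeries.C 432 := by simp
    rw [e26, e432, toC_sub, toC_mul, toC_mul, toC_pow, toC_C, toC_C] at e
    have e' : PowerSeries.C (26 : ℂ) * toC zzS ^ 3 - toC KKS = PowerSeries.C (432 : ℂ) * toC hhS := by
      rw [← Int.cast_ofNat (R := ℂ) 26, ← Int.cast_ofNat (R := ℂ) 432]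
      exact e.symm
    rw [e', ← mul_assoc, ← map_mul]
    norm_num
  rw [h1] at h
  refine h.congr 0 (fun τ _ => ?_)
  unfold hh
  ring

end Pool.Agent.LibZQ46
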